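import Mathlib

/-!
# MP_01b126_co, lower bound, part 1: the transfer certificate

A *step* is a letter of the middle word of a strip of width three (`true` = left letter), the
number of extra letters of the outer word read before the matching letter, and a flip flag.
The state is `(X₁, X₂)`; a wall edge is a contact edge iff the corresponding coordinate lands on `0`.
-/

namespace MP01b126.LB

/-- letter (`true` = left), number of extra letters of the outer word, flip flag -/
abbrev Step := Bool × ℕ × Bool

/-- the next state -/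
def nxt (s : ℤ × ℤ) (t : Step) : ℤ × ℤ :=
  if t.1 then (s.1 + t.2.1 - 2, s.2 + 1) else (s.1 + 1, s.2 + t.2.1 - 2)

/-- a flip flag is only allowed at a contact edge -/
def okStep (s : ℤ × ℤ) (t : Step) : Prop :=
  t.2.2 = true → (if t.1 then s.1 + t.2.1 - 2 = 0 else s.2 + t.2.1 - 2 = 0)

instance (s : ℤ × ℤ) (t : Step) : Decidable (okStep s t) := by
  unfold okStep; infer_instance

/-- all steps of the list are allowed, starting in the state `s` -/
def Valid : ℤ × ℤ → List Step → Prop
  | _, [] => True
  | s, t :: l => okStep s t ∧ Valid (nxt s t) l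

/-- the final state -/
def fin : ℤ × ℤ → List Step → ℤ × ℤ
  | s, [] => s
  | s, t :: l => fin (nxt s t) l

/-- number of left letters of the middle word -/
def cP (l : List Step) : ℕ := (l.map (fun t => if t.1 then 1 else 0)).sum
/-- number of right letters of the middle word -/
def cQ (l : List Step) : ℕ := (l.map (fun t => if t.1 then 0 else 1)).sum
/-- number of extra letters of the left outer word -/
def cA (l : List Step) : ℕ := (l.map (fun t => if t.1 then t.2.1 else 0)).sum
/-- number of extra letters of the right outer word -/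
def cB (l : List Step) : ℕ := (l.map (fun t => if t.1 then 0 else t.2.1)).sum

@[simp] lemma cP_nil : cP [] = 0 := rfl
@[simp] lemma cQ_nil : cQ [] = 0 := rfl
@[simp] lemma cA_nil : cA [] = 0 := rfl
@[simp] lemma cB_nil : cB [] = 0 := rfl
@[simp] lemma cP_cons (t : Step) (l : List Step) : cP (t :: l) = (if t.1 then 1 else 0) + cP l := by
  simp [cP]
@[simp] lemma cQ_cons (t : Step) (l : List Step) : cQ (t :: l) = (if t.1 then 0 else 1) + cQ l := by
  simp [cQ]
@[simp] lemma cA_cons (t : Step) (l : List Step) :
    cA (t :: l) = (if t.1 then t.2.1 else 0) + cA l := by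
  simp [cA]
@[simp] lemma cB_cons (t : Step) (l : List Step) :
    cB (t :: l) = (if t.1 then 0 else t.2.1) + cB l := by
  simp [cB]
@[simp] lemma cP_append (l l' : List Step) : cP (l ++ l') = cP l + cP l' := by simp [cP]
@[simp] lemma cQ_append (l l' : List Step) : cQ (l ++ l') = cQ l + cQ l' := by simp [cQ]
@[simp] lemma cA_append (l l' : List Step) : cA (l ++ l') = cA l + cA l' := by simp [cA]
@[simp] lemma cB_append (l l' : List Step) : cB (l ++ l') = cB l + cB l' := by simp [cB]

lemma cPQ_length (l : List Step) : cP l + cQ l = l.length := by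
  induction l with
  | nil => rfl
  | cons t l ih =>
    simp only [cP_cons, cQ_cons, List.length_cons]
    split_ifs <;> omega

lemma fin_append (s : ℤ × ℤ) (l l' : List Step) : fin s (l ++ l') = fin (fin s l) l' := by
  induction l generalizing s with
  | nil => rfl
  | cons t l ih => simp only [List.cons_append, fin, ih]

lemma valid_append (s : ℤ × ℤ) (l l' : List Step) :
    Valid s (l ++ l') ↔ Valid s l ∧ Valid (fin s l) l' := by
  induction l generalizing s with
  | nil => simp [Valid, fin]
  | cons t l ih => simp only [List.cons_append, Valid, fin, ih, and_assoc]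

lemma fin_fst (s : ℤ × ℤ) (l : List Step) : (fin s l).1 = s.1 + cA l - 2 * cP l + cQ l := by
  induction l generalizing s with
  | nil => simp [fin]
  | cons t l ih =>
    simp only [fin, ih, cA_cons, cP_cons, cQ_cons, nxt]
    split_ifs <;> push_cast <;> ring

lemma fin_snd (s : ℤ × ℤ) (l : List Step) : (fin s l).2 = s.2 + cB l - 2 * cQ l + cP l := by
  induction l generalizing s with
  | nil => simp [fin]
  | cons t l ih =>
    simp only [fin, ih, cB_cons, cP_cons, cQ_cons, nxt]
    split_ifs <;> push_cast <;> ring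

/-- mirror image of a step -/
def mir (t : Step) : Step := (!t.1, t.2.1, t.2.2)

lemma mir_injective : Function.Injective mir := by
  rintro ⟨a, b, c⟩ ⟨a', b', c'⟩ h
  simp only [mir, Prod.mk.injEq] at h
  obtain ⟨h1, h2, h3⟩ := h
  have : a = a' := by simpa using h1
  subst this; subst h2; subst h3; rfl

lemma nxt_mir (s : ℤ × ℤ) (t : Step) : nxt s.swap (mir t) = (nxt s t).swap := by
  obtain ⟨a, b, c⟩ := t
  cases a <;> simp [nxt, mir, Prod.swap]

lemma okStep_mir (s : ℤ × ℤ) (t : Step) : okStep s.swap (mir t) ↔ okStep s t := by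
  obtain ⟨a, b, c⟩ := t
  cases a <;> simp [okStep, mir, Prod.swap]

lemma valid_mir (s : ℤ × ℤ) (l : List Step) : Valid s.swap (l.map mir) ↔ Valid s l := by
  induction l generalizing s with
  | nil => simp [Valid]
  | cons t l ih => simp only [List.map_cons, Valid, okStep_mir, nxt_mir, ih]

lemma cP_mir (l : List Step) : cP (l.map mir) = cQ l := by
  induction l with
  | nil => rfl
  | cons t l ih =>
    obtain ⟨a, b, c⟩ := t
    cases a <;> simp [mir] at * <;> omega
lemma cQ_mir (l : List Step) : cQ (l.map mir) = cP l := by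
  induction l with
  | nil => rfl
  | cons t l ih =>
    obtain ⟨a, b, c⟩ := t
    cases a <;> simp [mir] at * <;> omega
lemma cA_mir (l : List Step) : cA (l.map mir) = cB l := by
  induction l with
  | nil => rfl
  | cons t l ih =>
    obtain ⟨a, b, c⟩ := t
    cases a <;> simp [mir] at * <;> omega
lemma cB_mir (l : List Step) : cB (l.map mir) = cA l := by
  induction l with
  | nil => rfl
  | cons t l ih =>
    obtain ⟨a, b, c⟩ := t
    cases a <;> simp [mir] at * <;> omega

/-- total number of letters of the three words -/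
def len (l : List Step) : ℕ := cA l + 2 * cP l + 2 * cQ l + cB l

/-- the certificate: rows of a positive vector -/
def tab : List (List ℕ) := [[], [],
  [0, 0, 1, 2, 5, 8, 12, 18, 25, 35, 48, 64, 80, 66, 65, 55, 49, 39, 27],
  [0, 0, 2, 5, 10, 15, 23, 33, 46, 63, 85, 111, 135, 110, 106, 90, 77, 60, 40],
  [0, 0, 5, 10, 17, 27, 40, 56, 77, 105, 140, 180, 209, 171, 161, 135, 114, 86, 52],
  [0, 0, 8, 15, 27, 41, 60, 83, 114, 153, 201, 255, 291, 234, 218, 180, 149, 110, 64],
  [0, 0, 12, 23, 40, 60, 86, 119, 161, 213, 277, 345, 389, 309, 283, 230, 187, 135, 77],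
  [0, 0, 18, 33, 56, 83, 119, 163, 218, 286, 367, 451, 501, 393, 355, 283, 226, 159, 89],
  [0, 0, 25, 46, 77, 114, 161, 218, 288, 374, 474, 575, 631, 487, 432, 338, 263, 180, 98],
  [0, 0, 35, 63, 105, 153, 213, 286, 374, 479, 599, 717, 774, 584, 507, 386, 292, 194, 100],
  [0, 0, 48, 85, 140, 201, 277, 367, 474, 599, 737, 866, 912, 671, 564, 417, 303, 195, 95],
  [0, 0, 64, 111, 180, 255, 345, 451, 575, 717, 866, 990, 1000, 714, 572, 418, 293, 178, 78],
  [0, 0, 80, 135, 209, 291, 389, 501, 631, 774, 912, 1000, 923, 669, 521, 368, 248, 139, 48],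
  [0, 0, 66, 110, 171, 234, 309, 393, 487, 584, 671, 714, 669, 455, 350, 239, 154, 82, 31],
  [0, 0, 65, 106, 161, 218, 283, 355, 432, 507, 564, 572, 521, 350, 259, 170, 104, 51, 18],
  [0, 0, 55, 90, 135, 180, 230, 283, 338, 386, 417, 418, 368, 239, 170, 107, 62, 29, 9],
  [0, 0, 49, 77, 114, 149, 187, 226, 263, 292, 303, 293, 248, 154, 104, 62, 33, 14, 3],
  [0, 0, 39, 60, 86, 110, 135, 159, 180, 194, 195, 178, 139, 82, 51, 29, 14, 5, 0],
  [0, 0, 27, 40, 52, 64, 77, 89, 98, 100, 95, 78, 48, 31, 18, 9, 3, 0, 0]]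

/-- the certificate vector, index shifted by `10` -/
def Vn (k j : ℕ) : ℕ := (tab.getD k []).getD j 0

/-- `sumTo n f = ∑ i < n, f i`, kernel friendly -/
def sumTo : ℕ → (ℕ → ℕ) → ℕ
  | 0, _ => 0
  | n + 1, f => sumTo n f + f n

lemma sumTo_eq (n : ℕ) (f : ℕ → ℕ) : sumTo n f = ∑ i ∈ Finset.range n, f i := by
  induction n with
  | zero => rfl
  | succ n ih => rw [Finset.sum_range_succ, ← ih]; rfl

/-- one inequality of the certificate -/
def chk (i j : ℕ) : Bool :=
  Nat.ble (Vn (i + 2) (j + 2) * 45 ^ 20)
    (sumTo 19 (fun G => 22 ^ (2 + G) * 45 ^ (18 - G) *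
      (Vn (i + G) (j + 3) * (if Nat.beq (i + G) 10 then 2 else 1)
        + Vn (i + 3) (j + G) * (if Nat.beq (j + G) 10 then 2 else 1))))

/-- all inequalities -/
def chkAll : ℕ → ℕ → Bool
  | 0, _ => true
  | n + 1, m => (go n m) && chkAll n m
where go (i : ℕ) : ℕ → Bool
  | 0 => true
  | j + 1 => chk i j && go i j

set_option maxRecDepth 100000 in
lemma chkAll_true : chkAll 17 17 = true := by decide +kernel

end MP01b126.LB
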