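import Pool.Agent.Lib.MP_01b126_co.LB.Strip
import Pool.Agent.Lib.MP_01b126_co.BridgeE2
import Pool.Agent.Lib.MP_01b126_co.Model

/-!
# MP_01b126_co, lower bound, part 3: different loops give different triangulations; gluing
-/

namespace MP01b126.LB

lemma pn_inj {i y j z : ℕ} : pn i y = pn j z ↔ i = j ∧ y = z := by
  simp only [pn, Prod.mk.injEq, Nat.cast_inj]

/-- apex over the edge `(1,p) (2,q)` -/
def apx (c : Cnt) (t : Step) : Pt :=
  if t.1 then (if t.2.2 then pn 0 (c.1 + t.2.1) else pn 1 (c.2.1 + 1))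
  else (if t.2.2 then pn 3 (c.2.2.2 + t.2.1) else pn 2 (c.2.2.1 + 1))

variable {m n : ℕ} {T : Finset (Finset Pt)}

lemma apx_tr {c : Cnt} {t : Step} (h : okStep (stt c) t) (hs : stepTris c t ⊆ T) :
    Tr T (pn 1 c.2.1) (pn 2 c.2.2.1) (apx c t) := by
  obtain ⟨a, p, q, b⟩ := c
  obtain ⟨x, G, f⟩ := t
  cases x
  · have hs' : pairR p q (b + G) f ⊆ T := by
      intro s hs'
      apply hs
      simp only [stepTris, Bool.false_eq_true, if_false, Finset.mem_union]
      exact Or.inr hs'
    cases f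
    · refine ⟨?_, ?_⟩
      · apply hs'
        simp [pairR, apx]
      · simp only [apx, Bool.false_eq_true, if_false]
        rw [det3_pn]; push_cast; ring
    · have h1 := (ok_iff h rfl).2 rfl
      simp only at h1
      have h2 : ((b + G : ℕ) : ℤ) = 2 * q + 1 - p := by omega
      refine ⟨?_, ?_⟩
      · apply hs'
        simp [pairR, apx]
      · simp only [apx, Bool.false_eq_true, if_false, if_true]
        rw [det3_pn, h2]; push_cast; ring
  · have hs' : pairL (a + G) p q f ⊆ T := by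
      intro s hs'
      apply hs
      simp only [stepTris, if_true, Finset.mem_union]
      exact Or.inr hs'
    cases f
    · refine ⟨?_, ?_⟩
      · apply hs'
        simp [pairL, apx]
      · simp only [apx, Bool.false_eq_true, if_false, if_true]
        rw [det3_pn]; push_cast; ring
    · have h1 := (ok_iff h rfl).1 rfl
      simp only at h1
      have h2 : ((a + G : ℕ) : ℤ) = 2 * p + 1 - q := by omega
      refine ⟨?_, ?_⟩
      · have : ({pn 1 p, pn 2 q, pn 0 (a + G)} : Finset Pt) = {pn 0 (a + G), pn 1 p, pn 2 q} := perm1 _ _ _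
        simp only [apx, if_true]
        rw [this]
        apply hs'
        simp [pairL]
      · simp only [apx, if_true]
        rw [det3_pn, h2]; push_cast; ring

lemma apxL_tr {a p q b G : ℕ} (hs : stepTris (a, p, q, b) (true, G, false) ⊆ T) :
    Tr T (pn 1 p) (pn 1 (p + 1)) (pn 0 (a + G)) := by
  refine ⟨?_, ?_⟩
  · rw [perm1]
    apply hs
    simp [stepTris, pairL]
  · rw [det3_pn]; push_cast; ring

lemma apxR_tr {a p q b G : ℕ} (hs : stepTris (a, p, q, b) (false, G, false) ⊆ T) :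
    Tr T (pn 2 (q + 1)) (pn 2 q) (pn 3 (b + G)) := by
  refine ⟨?_, ?_⟩
  · have : ({pn 2 (q + 1), pn 2 q, pn 3 (b + G)} : Finset Pt) = {pn 2 q, pn 3 (b + G), pn 2 (q + 1)} := by
      ext z; simp only [Finset.mem_insert, Finset.mem_singleton]; tauto
    rw [this]
    apply hs
    simp [stepTris, pairR]
  · rw [det3_pn]; push_cast; ring

/-- the step can be read off from the triangulation -/
lemma step_unique (hT : IsTriangulation m n T) {c : Cnt} {t t' : Step} (h : okStep (stt c) t)
    (h' : okStep (stt c) t') (hs : stepTris c t ⊆ T) (hs' : stepTris c t' ⊆ T) : t = t' := by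
  have h1 := hT.left_unique (apx_tr h hs) (apx_tr h' hs')
  obtain ⟨a, p, q, b⟩ := c
  obtain ⟨x, G, f⟩ := t
  obtain ⟨x', G', f'⟩ := t'
  have key : x = x' ∧ f = f' ∧ (f = true → G = G') := by
    cases x <;> cases x' <;> cases f <;> cases f' <;>
      simp only [apx, Bool.false_eq_true, if_false, if_true, pn_inj] at h1 <;>
      simp <;> omega
  obtain ⟨rfl, rfl, h2⟩ := key
  have hG : G = G' := by
    cases f
    · cases x
      · have h3 := hT.left_unique (apxR_tr hs) (apxR_tr hs')
        rw [pn_inj] at h3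
        omega
      · have h3 := hT.left_unique (apxL_tr hs) (apxL_tr hs')
        rw [pn_inj] at h3
        omega
    · exact h2 rfl
  rw [hG]

lemma list_unique (hT : IsTriangulation m n T) {c : Cnt} {l l' : List Step}
    (hv : Valid (stt c) l) (hv' : Valid (stt c) l') (hs : tris c l ⊆ T) (hs' : tris c l' ⊆ T)
    (hlen : l.length = l'.length) : l = l' := by
  induction l generalizing c l' with
  | nil =>
    cases l' with
    | nil => rfl
    | cons t' l' => simp at hlen
  | cons t l ih =>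
    cases l' with
    | nil => simp at hlen
    | cons t' l' =>
      have e1 : stepTris c t ⊆ T := Finset.union_subset_left hs
      have e2 : stepTris c t' ⊆ T := Finset.union_subset_left hs'
      have heq := step_unique hT hv.1 hv'.1 e1 e2
      subst heq
      have := ih (c := nextc c t) (l' := l') (by rw [stt_next]; exact hv.2) (by rw [stt_next]; exact hv'.2)
        (Finset.union_subset_right hs) (Finset.union_subset_right hs') (by simpa using hlen)
      rw [this]

lemma finite_triang (m n : ℕ) : {T : Finset (Finset Pt) | IsTriangulation m n T}.Finite := by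
  apply Set.Finite.subset (((grid m n).powerset.powerset).finite_toSet)
  intro T hT
  simp only [Finset.coe_powerset, Set.mem_preimage, Set.mem_powerset_iff]
  intro t ht
  simp only [Finset.coe_powerset, Set.mem_preimage, Set.mem_powerset_iff]
  exact_mod_cast IsTriangulation.sub hT ht

/-- lower bound for one strip -/
theorem strip_count {N : ℕ} (hN : 0 < N) {S : Finset (List Step)}
    (hS : ∀ l ∈ S, Valid (1, 1) l ∧ cA l = N ∧ cP l = N ∧ cQ l = N ∧ cB l = N) :
    S.card ≤ f 3 N := by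
  have hst : stt (0, 0, 0, 0) = (1, 1) := by simp [stt]
  rw [← Set.ncard_coe_finset, f]
  refine Set.ncard_le_ncard_of_injOn (tris (0, 0, 0, 0)) ?_ ?_ (finite_triang 3 N)
  · intro l hl
    obtain ⟨h0, h1, h2, h3, h4⟩ := hS l hl
    exact strip_triangulation hN h0 h1 h2 h3 h4
  · intro l hl l' hl' heq
    obtain ⟨h0, h1, h2, h3, h4⟩ := hS l hl
    obtain ⟨h0', h1', h2', h3', h4'⟩ := hS l' hl'
    apply list_unique (strip_triangulation hN h0 h1 h2 h3 h4) (c := (0, 0, 0, 0))
      (by rw [hst]; exact h0) (by rw [hst]; exact h0') (Finset.Subset.refl _) (by rw [heq])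
    rw [← cPQ_length, ← cPQ_length, h2, h3, h2', h3']

/-! ### gluing -/

/-- translate of a set of lattice points -/
def sh (v : Pt) (t : Finset Pt) : Finset Pt := t.image (fun p => p + v)

lemma sh_injective (v : Pt) : Function.Injective (sh v) := by
  apply Finset.image_injective
  intro p q h
  exact add_right_cancel h

lemma sh_uni {v : Pt} {t : Finset Pt} (h : IsUni t) : IsUni (sh v t) := by
  obtain ⟨a, b, c, rfl, h⟩ := h
  refine ⟨a + v, b + v, c + v, ?_, ?_⟩
  · simp [sh, Finset.image_insert]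
  · rw [← h]; congr 1; simp only [det3, Prod.fst_add, Prod.snd_add]; ring

lemma emb_add (p v : Pt) : emb (p + v) = emb v + emb p := by
  ext
  · simp only [emb, Prod.fst_add]; push_cast; ring
  · simp only [emb, Prod.snd_add]; push_cast; ring

lemma hull_sh (v : Pt) (t : Finset Pt) : hull (sh v t) = (fun x => emb v + x) '' hull t := by
  have h2 : (fun q => emb v + q) '' convexHull ℝ (emb '' (t : Set Pt))
      = convexHull ℝ ((fun q => emb v + q) '' (emb '' (t : Set Pt))) := by
    have := (AffineMap.const ℝ (ℝ × ℝ) (emb v) + AffineMap.id ℝ (ℝ × ℝ)).image_convexHull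
      (emb '' (t : Set Pt))
    exact this
  rw [hull, hull, h2, sh]
  congr 1
  rw [Finset.coe_image, Set.image_image, Set.image_image]
  apply Set.image_congr
  intro p _
  exact emb_add p v

/-- gluing two triangulated rectangles -/
theorem glue {m₁ n₁ m₂ n₂ : ℕ} (v : Pt)
    (hcov : rect m n ⊆ rect m₁ n₁ ∪ (fun x => emb v + x) '' rect m₂ n₂)
    (hs1 : grid m₁ n₁ ⊆ grid m n) (hs2 : sh v (grid m₂ n₂) ⊆ grid m n)
    (harea : 2 * m₁ * n₁ + 2 * m₂ * n₂ ≤ 2 * m * n)
    (hsep : ∀ t, IsUni t → t ⊆ grid m₁ n₁ → t ⊆ sh v (grid m₂ n₂) → False) :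
    f m₁ n₁ * f m₂ n₂ ≤ f m n := by
  classical
  rw [f, f, f, ← Set.ncard_prod]
  refine Set.ncard_le_ncard_of_injOn (fun p => p.1 ∪ p.2.image (sh v)) ?_ ?_ (finite_triang m n)
  · rintro ⟨T₁, T₂⟩ ⟨h1, h2⟩
    simp only [Set.mem_ofPred_eq] at h1 h2 ⊢
    apply isTriangulation_of_cover
    · intro t ht
      rw [Finset.mem_union, Finset.mem_image] at ht
      rcases ht with ht | ⟨s, hs, rfl⟩
      · exact h1.uni ht
      · exact sh_uni (h2.uni hs)
    · intro t ht
      rw [Finset.mem_union, Finset.mem_image] at ht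
      rcases ht with ht | ⟨s, hs, rfl⟩
      · exact (h1.sub ht).trans hs1
      · exact (Finset.image_subset_image (h2.sub hs)).trans hs2
    · intro x hx
      rcases hcov hx with h3 | ⟨y, hy, rfl⟩
      · obtain ⟨t, ht, hxt⟩ := h1.exists_mem h3
        exact Set.mem_iUnion₂.mpr ⟨t, Finset.mem_union_left _ ht, hxt⟩
      · obtain ⟨t, ht, hyt⟩ := h2.exists_mem hy
        refine Set.mem_iUnion₂.mpr ⟨sh v t, Finset.mem_union_right _ (Finset.mem_image_of_mem _ ht), ?_⟩
        rw [hull_sh]; exact ⟨y, hyt, rfl⟩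
    · refine (Finset.card_union_le _ _).trans ?_
      rw [h1.card]
      have := Finset.card_image_le (s := T₂) (f := sh v)
      rw [h2.card] at this
      omega
  · rintro ⟨T₁, T₂⟩ ⟨h1, h2⟩ ⟨T₁', T₂'⟩ ⟨h1', h2'⟩ heq
    simp only [Set.mem_ofPred_eq] at h1 h2 h1' h2'
    simp only at heq
    have key : ∀ T₁ T₂ T₁' T₂' : Finset (Finset Pt), IsTriangulation m₁ n₁ T₁ → IsTriangulation m₂ n₂ T₂ →
        IsTriangulation m₁ n₁ T₁' → IsTriangulation m₂ n₂ T₂' →
        T₁ ∪ T₂.image (sh v) = T₁' ∪ T₂'.image (sh v) → T₁ ⊆ T₁' ∧ T₂ ⊆ T₂' := by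
      intro T₁ T₂ T₁' T₂' h1 h2 h1' h2' heq
      constructor
      · intro t ht
        have : t ∈ T₁' ∪ T₂'.image (sh v) := by rw [← heq]; exact Finset.mem_union_left _ ht
        rw [Finset.mem_union, Finset.mem_image] at this
        rcases this with h | ⟨s, hs, rfl⟩
        · exact h
        · exact absurd (Finset.image_subset_image (h2'.sub hs)) (fun h => hsep _ (h1.uni ht) (h1.sub ht) h)
      · intro t ht
        have : sh v t ∈ T₁' ∪ T₂'.image (sh v) := by
          rw [← heq]; exact Finset.mem_union_right _ (Finset.mem_image_of_mem _ ht)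
        rw [Finset.mem_union, Finset.mem_image] at this
        rcases this with h | ⟨s, hs, hst⟩
        · exact absurd (Finset.image_subset_image (h2.sub ht)) (fun h3 => hsep _ (h1'.uni h) (h1'.sub h) h3)
        · rw [← sh_injective v hst]; exact hs
    obtain ⟨a1, a2⟩ := key T₁ T₂ T₁' T₂' h1 h2 h1' h2' heq
    obtain ⟨b1, b2⟩ := key T₁' T₂' T₁ T₂ h1' h2' h1 h2 heq.symm
    rw [Prod.mk.injEq]
    exact ⟨Finset.Subset.antisymm a1 b1, Finset.Subset.antisymm a2 b2⟩

/-- no unimodular triangle on a vertical line -/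
lemma not_uni_vert {t : Finset Pt} (ht : IsUni t) {k : ℤ} (h : ∀ p ∈ t, p.1 = k) : False := by
  obtain ⟨a, b, c, rfl, hD⟩ := ht
  have h1 := h a (by simp)
  have h2 := h b (by simp)
  have h3 := h c (by simp)
  simp only [det3, h1, h2, h3] at hD
  simp at hD

lemma not_uni_hor {t : Finset Pt} (ht : IsUni t) {k : ℤ} (h : ∀ p ∈ t, p.2 = k) : False := by
  obtain ⟨a, b, c, rfl, hD⟩ := ht
  have h1 := h a (by simp)
  have h2 := h b (by simp)
  have h3 := h c (by simp)
  simp only [det3, h1, h2, h3] at hD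
  simp at hD

theorem f_hmul (m₁ m₂ n : ℕ) : f m₁ n * f m₂ n ≤ f (m₁ + m₂) n := by
  apply glue ((m₁ : ℤ), 0)
  · rintro ⟨x, y⟩ ⟨⟨hx0, hx1⟩, hy⟩
    simp only at hx0 hx1
    push_cast at hx1
    rcases le_total x m₁ with h | h
    · exact Or.inl ⟨⟨hx0, h⟩, hy⟩
    · refine Or.inr ⟨(x - m₁, y), ⟨⟨by simp only; linarith, by simp only; linarith⟩, hy⟩, ?_⟩
      simp [emb]
  · intro p hp
    simp only [grid, Finset.mem_product, Finset.mem_Icc] at hp ⊢
    push_cast
    omega
  · intro p hp
    simp only [sh, Finset.mem_image] at hp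
    obtain ⟨q, hq, rfl⟩ := hp
    simp only [grid, Finset.mem_product, Finset.mem_Icc, Prod.fst_add, Prod.snd_add] at hq ⊢
    push_cast
    omega
  · have : 2 * (m₁ + m₂) * n = 2 * m₁ * n + 2 * m₂ * n := by ring
    rw [this]
  · intro t ht h1 h2
    apply not_uni_vert ht (k := m₁)
    intro p hp
    have g1 := h1 hp
    have g2 := h2 hp
    simp only [sh, Finset.mem_image] at g2
    obtain ⟨q, hq, rfl⟩ := g2
    simp only [grid, Finset.mem_product, Finset.mem_Icc, Prod.fst_add, Prod.snd_add] at g1 hq ⊢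
    omega

theorem f_vmul (m n₁ n₂ : ℕ) : f m n₁ * f m n₂ ≤ f m (n₁ + n₂) := by
  apply glue (0, (n₁ : ℤ))
  · rintro ⟨x, y⟩ ⟨hx, ⟨hy0, hy1⟩⟩
    simp only at hy0 hy1
    push_cast at hy1
    rcases le_total y n₁ with h | h
    · exact Or.inl ⟨hx, ⟨hy0, h⟩⟩
    · refine Or.inr ⟨(x, y - n₁), ⟨hx, ⟨by simp only; linarith, by simp only; linarith⟩⟩, ?_⟩
      simp [emb]
  · intro p hp
    simp only [grid, Finset.mem_product, Finset.mem_Icc] at hp ⊢
    push_cast
    omega
  · intro p hp
    simp only [sh, Finset.mem_image] at hp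
    obtain ⟨q, hq, rfl⟩ := hp
    simp only [grid, Finset.mem_product, Finset.mem_Icc, Prod.fst_add, Prod.snd_add] at hq ⊢
    push_cast
    omega
  · have : 2 * m * (n₁ + n₂) = 2 * m * n₁ + 2 * m * n₂ := by ring
    rw [this]
  · intro t ht h1 h2
    apply not_uni_hor ht (k := n₁)
    intro p hp
    have g1 := h1 hp
    have g2 := h2 hp
    simp only [sh, Finset.mem_image] at g2
    obtain ⟨q, hq, rfl⟩ := g2
    simp only [grid, Finset.mem_product, Finset.mem_Icc, Prod.fst_add, Prod.snd_add] at g1 hq ⊢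
    omega

lemma f_one_one : 1 ≤ f 1 1 := by
  have h : IsTriangulation 1 1 {{(0, 0), (1, 0), (0, 1)}, {(1, 0), (1, 1), (0, 1)}} := by
    apply isTriangulation_of_cover
    · intro t ht
      simp only [Finset.mem_insert, Finset.mem_singleton] at ht
      rcases ht with rfl | rfl
      · exact ⟨_, _, _, rfl, by simp [det3]⟩
      · exact ⟨_, _, _, rfl, by simp [det3]⟩
    · intro t ht p hp
      simp only [Finset.mem_insert, Finset.mem_singleton] at ht
      simp only [grid, Finset.mem_product, Finset.mem_Icc]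
      rcases ht with rfl | rfl <;> simp only [Finset.mem_insert, Finset.mem_singleton] at hp <;>
        rcases hp with rfl | rfl | rfl <;> simp
    · rintro ⟨x, y⟩ ⟨⟨hx0, hx1⟩, hy0, hy1⟩
      simp only at hx0 hx1 hy0 hy1
      simp only [Finset.set_biUnion_insert, Finset.set_biUnion_singleton]
      rcases le_total (x + y) 1 with h | h
      · left
        rw [mem_hull_iff (by simp [det3])]
        simp only [detR]
        push_cast at *
        refine ⟨by linarith, by linarith, by linarith⟩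
      · right
        rw [mem_hull_iff (by simp [det3])]
        simp only [detR]
        push_cast at *
        refine ⟨by linarith, by linarith, by linarith⟩
    · exact Finset.card_le_two
  have h1 : {T : Finset (Finset Pt) | IsTriangulation 1 1 T}.Nonempty := ⟨_, h⟩
  exact (Set.ncard_pos (finite_triang 1 1)).mpr h1

lemma f_pos {m n : ℕ} (hm : 0 < m) (hn : 0 < n) : 1 ≤ f m n := by
  have h1 : ∀ m : ℕ, 1 ≤ f (m + 1) 1 := by
    intro m
    induction m with
    | zero => exact f_one_one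
    | succ m ih => exact (Nat.mul_le_mul ih f_one_one).trans (f_hmul (m + 1) 1 1)
  have h2 : ∀ n : ℕ, 1 ≤ f m (n + 1) := by
    intro n
    induction n with
    | zero =>
      obtain ⟨k, rfl⟩ : ∃ k, m = k + 1 := ⟨m - 1, by omega⟩
      exact h1 k
    | succ n ih =>
      obtain ⟨k, rfl⟩ : ∃ k, m = k + 1 := ⟨m - 1, by omega⟩
      exact (Nat.mul_le_mul ih (h1 k)).trans (f_vmul (k + 1) (n + 1) 1)
  obtain ⟨k, rfl⟩ : ∃ k, n = k + 1 := ⟨n - 1, by omega⟩
  exact h2 k

/-- leftover columns -/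
lemma f_mono_h {m r n : ℕ} (hn : 0 < n) : f m n ≤ f (m + r) n := by
  rcases Nat.eq_zero_or_pos r with rfl | hr
  · exact le_rfl
  · exact (Nat.le_mul_of_pos_right _ (f_pos hr hn)).trans (f_hmul m r n)

lemma f_mono_v {m n r : ℕ} (hm : 0 < m) : f m n ≤ f m (n + r) := by
  rcases Nat.eq_zero_or_pos r with rfl | hr
  · exact le_rfl
  · exact (Nat.le_mul_of_pos_right _ (f_pos hm hr)).trans (f_vmul m n r)

lemma f_hpow (m n k : ℕ) : f m n ^ (k + 1) ≤ f (m * (k + 1)) n := by
  induction k with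
  | zero => simp
  | succ k ih =>
    calc f m n ^ (k + 1 + 1) = f m n ^ (k + 1) * f m n := pow_succ _ _
      _ ≤ f (m * (k + 1)) n * f m n := Nat.mul_le_mul_right _ ih
      _ ≤ f (m * (k + 1) + m) n := f_hmul _ _ _
      _ = f (m * (k + 1 + 1)) n := by congr 1

lemma f_vpow (m n k : ℕ) : f m n ^ (k + 1) ≤ f m (n * (k + 1)) := by
  induction k with
  | zero => simp
  | succ k ih =>
    calc f m n ^ (k + 1 + 1) = f m n ^ (k + 1) * f m n := pow_succ _ _
      _ ≤ f m (n * (k + 1)) * f m n := Nat.mul_le_mul_right _ ih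
      _ ≤ f m (n * (k + 1) + n) := f_vmul _ _ _
      _ = f m (n * (k + 1 + 1)) := by congr 1

/-- block decomposition -/
lemma f_blocks {N j k r s : ℕ} (hN : 0 < N) (hj : 0 < j) (hk : 0 < k) :
    f 3 N ^ (j * k) ≤ f (3 * k + r) (N * j + s) := by
  obtain ⟨j', rfl⟩ : ∃ j', j = j' + 1 := ⟨j - 1, by omega⟩
  obtain ⟨k', rfl⟩ : ∃ k', k = k' + 1 := ⟨k - 1, by omega⟩
  calc f 3 N ^ ((j' + 1) * (k' + 1)) = (f 3 N ^ (j' + 1)) ^ (k' + 1) := pow_mul _ _ _
    _ ≤ (f 3 (N * (j' + 1))) ^ (k' + 1) := Nat.pow_le_pow_left (f_vpow _ _ _) _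
    _ ≤ f (3 * (k' + 1)) (N * (j' + 1)) := f_hpow _ _ _
    _ ≤ f (3 * (k' + 1)) (N * (j' + 1) + s) := f_mono_v (by positivity)
    _ ≤ f (3 * (k' + 1) + r) (N * (j' + 1) + s) := f_mono_h (by
        have : 0 < N * (j' + 1) := by positivity
        omega)

lemma pow_compare : ∃ K : ℕ, K = 2700 ∧ (4.175 : ℝ) ^ (K + 1) ≤ (4.18 : ℝ) ^ K := by
  refine ⟨2700, rfl, ?_⟩
  generalize hK : (2700 : ℕ) = K
  have h1 : (4.18 : ℝ) = 4.175 * (1 + 1 / 835) := by norm_num
  have h2 : 1 + (K : ℝ) * (1 / 835) ≤ (1 + 1 / 835) ^ K :=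
    one_add_mul_le_pow (by norm_num) K
  have h3 : (4.175 : ℝ) ≤ 1 + (K : ℝ) * (1 / 835) := by
    rw [← hK]; norm_num
  rw [h1, mul_pow, pow_succ]
  exact mul_le_mul_of_nonneg_left (h3.trans h2) (by positivity)

/-- **lower bound** -/
theorem lower_f : ∃ N : ℕ, ∀ m n : ℕ, N ≤ m → N ≤ n → (4.175 : ℝ) ^ (m * n) ≤ f m n := by
  obtain ⟨N, hN1, S, hS, hcard⟩ := core 1
  have hNpos : 0 < N := hN1
  have hbase : (4.18 : ℝ) ^ (3 * N) ≤ f 3 N := hcard.trans (by exact_mod_cast strip_count hNpos hS)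
  refine ⟨100000 * N, fun m n hm hn => ?_⟩
  set k := m / 3 with hk
  set j := n / N with hj
  have hm' : 100000 ≤ m := le_trans (by nlinarith) hm
  have hkpos : 0 < k := by omega
  have hjge : 100000 ≤ j := by
    rw [hj, Nat.le_div_iff_mul_le hNpos]; exact hn
  have hmk : m = 3 * k + m % 3 := by omega
  have hnj : n = N * j + n % N := (Nat.div_add_mod n N).symm
  have h1 : f 3 N ^ (j * k) ≤ f m n := by
    have := f_blocks (r := m % 3) (s := n % N) hNpos (by omega : 0 < j) hkpos
    rwa [← hmk, ← hnj] at this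
  have h2 : (4.18 : ℝ) ^ (3 * N * (j * k)) ≤ f m n := by
    rw [pow_mul]
    calc ((4.18 : ℝ) ^ (3 * N)) ^ (j * k) ≤ (f 3 N : ℝ) ^ (j * k) :=
          pow_le_pow_left₀ (by positivity) hbase _
      _ ≤ f m n := by exact_mod_cast h1
  refine le_trans ?_ h2
  -- arithmetic
  obtain ⟨K, hK, hcmp⟩ := pow_compare
  set u := m * n / 2701 + 1 with hu
  have hu1 : m * n ≤ (K + 1) * u := by
    have := Nat.div_add_mod (m * n) 2701
    have := Nat.mod_lt (m * n) (show 0 < 2701 by norm_num)
    rw [hK]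
    omega
  have hu2 : 2701 * u ≤ m * n + 2701 := by
    have := Nat.div_mul_le_self (m * n) 2701
    omega
  have hkey : K * u ≤ 3 * N * (j * k) := by
    rw [hK]
    have a1 : m ≤ 3 * k + 2 := by omega
    have a2 : n ≤ N * j + N := by
      have := Nat.mod_lt n hNpos
      omega
    -- `m n ≤ (3k+2)(Nj+N)`
    have b1 : m * n ≤ (3 * k + 2) * (N * j + N) := Nat.mul_le_mul a1 a2
    have hk3 : 33333 ≤ k := by omega
    have hX : (3 * k + 2) * (N * j + N) = 3 * N * (j * k) + (3 * (N * k) + 2 * (N * j) + 2 * N) := by ring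
    set X := N * (j * k) with hXdef
    have hX' : 3 * N * (j * k) = 3 * X := by rw [hXdef]; ring
    have d1 : 100000 * (N * k) ≤ X := by
      rw [hXdef]
      calc 100000 * (N * k) = N * (100000 * k) := by ring
        _ ≤ N * (j * k) := Nat.mul_le_mul_left _ (Nat.mul_le_mul_right _ hjge)
    have d2 : 33333 * (N * j) ≤ X := by
      rw [hXdef]
      calc 33333 * (N * j) = N * (j * 33333) := by ring
        _ ≤ N * (j * k) := Nat.mul_le_mul_left _ (Nat.mul_le_mul_left _ hk3)
    have d3 : N ≤ N * k := Nat.le_mul_of_pos_right _ hkpos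
    have d4 : 1 ≤ N * k := Nat.mul_pos hNpos hkpos
    have d5 : 33333 ≤ N * k := hk3.trans (Nat.le_mul_of_pos_left _ hNpos)
    rw [hX'] at hX ⊢
    rw [hX] at b1
    omega
  calc (4.175 : ℝ) ^ (m * n) ≤ (4.175 : ℝ) ^ ((K + 1) * u) := pow_le_pow_right₀ (by norm_num) hu1
    _ = ((4.175 : ℝ) ^ (K + 1)) ^ u := pow_mul _ _ _
    _ ≤ ((4.18 : ℝ) ^ K) ^ u := pow_le_pow_left₀ (by positivity) hcmp _
    _ = (4.18 : ℝ) ^ (K * u) := (pow_mul _ _ _).symm
    _ ≤ (4.18 : ℝ) ^ (3 * N * (j * k)) := pow_le_pow_right₀ (by norm_num) hkey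

end MP01b126.LB

namespace Pool.Agent.MP01b126

/-- LowerThm in the edge encoding -/
theorem lowerThm : LowerThm := by
  obtain ⟨N, hN⟩ := _root_.MP01b126.LB.lower_f
  refine ⟨max N 1, fun m n hm hn => ?_⟩
  have h := hN m n (le_trans (le_max_left _ _) hm) (le_trans (le_max_left _ _) hn)
  have hm1 : 0 < m := le_trans (le_max_right _ _) hm
  have hn1 : 0 < n := le_trans (le_max_right _ _) hn
  rw [_root_.MP01b126.f_eq hm1 hn1] at h
  exact h

end Pool.Agent.MP01b126
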