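import Pool.Agent.Lib.MP_01b126_co.LB.Weight

namespace MP01b126.LB

/-- `k` times left letter, right letter, no extra letters -/
def rep : ℕ → List Step
  | 0 => []
  | k + 1 => (true, 0, false) :: (false, 0, false) :: rep k

lemma rep_spec (k : ℕ) (s : ℤ × ℤ) : Valid s (rep k) ∧ fin s (rep k) = (s.1 - k, s.2 - k) := by
  induction k generalizing s with
  | zero => simp [rep, Valid, fin]
  | succ k ih =>
    have h := ih (nxt (nxt s (true, 0, false)) (false, 0, false))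
    refine ⟨⟨by simp [okStep], ⟨by simp [okStep], h.1⟩⟩, ?_⟩
    show fin (nxt (nxt s (true, 0, false)) (false, 0, false)) (rep k) = _
    rw [h.2]
    simp only [nxt]
    ext <;> simp <;> ring

lemma pad_exists (s : ℤ × ℤ) : ∃ l, Valid s l ∧ fin s l = (1, 1) := by
  obtain ⟨k, hk⟩ : ∃ k : ℕ, s.1 - k ≤ 2 ∧ s.2 - k ≤ 2 :=
    ⟨(max s.1 s.2).toNat, by omega⟩
  obtain ⟨hv, hf⟩ := rep_spec k s
  obtain ⟨a, ha⟩ : ∃ a : ℕ, (a : ℤ) = 2 - (s.1 - k) := ⟨(2 - (s.1 - k)).toNat, by omega⟩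
  obtain ⟨b, hb⟩ : ∃ b : ℕ, (b : ℤ) = 2 - (s.2 - k) := ⟨(2 - (s.2 - k)).toNat, by omega⟩
  refine ⟨rep k ++ [(false, b, false), (true, a, false)], ?_, ?_⟩
  · rw [valid_append]
    exact ⟨hv, by simp [Valid, okStep]⟩
  · rw [fin_append, hf]
    simp only [fin, nxt]
    ext
    · simp; omega
    · simp; omega

/-- the vector of letter counts -/
def cls (l : List Step) : ℕ × ℕ × ℕ × ℕ := (cA l, cP l, cQ l, cB l)

lemma class_exists (K : ℕ) : ∃ S : Finset (List Step), ∃ c : ℕ × ℕ × ℕ × ℕ,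
    ∃ e ∈ box, (∀ l ∈ S, l.length = K ∧ Valid (1, 1) l ∧ fin (1, 1) l = e ∧ cls l = c) ∧
    S.Nonempty ∧
    (0.99 : ℝ) ≤ S.card * x ^ (c.1 + 2 * c.2.1 + 2 * c.2.2.1 + c.2.2.2) * (18 * K + 1) ^ 4 := by
  classical
  have h11 : ((1, 1) : ℤ × ℤ) ∈ box := by rw [mem_box]; norm_num
  set R : Finset (ℕ × ℕ × ℕ × ℕ) := Finset.range (18 * K + 1) ×ˢ (Finset.range (18 * K + 1) ×ˢ
    (Finset.range (18 * K + 1) ×ˢ Finset.range (18 * K + 1))) with hR
  have hcard : R.card = (18 * K + 1) ^ 4 := by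
    simp only [hR, Finset.card_product, Finset.card_range]; ring
  have hmaps : ∀ l ∈ P K (1, 1), cls l ∈ R := by
    intro l hl
    obtain ⟨_, _, _, h4, h5, h6, h7⟩ := mem_P h11 hl
    simp only [hR, cls, Finset.mem_product, Finset.mem_range]
    omega
  have hsum := weight_ge K h11
  rw [← Finset.sum_fiberwise_of_maps_to hmaps] at hsum
  have hV : (V (1, 1) : ℝ) = 990 := by
    have : V (1, 1) = 990 := by decide
    rw [this]; norm_num
  rw [hV] at hsum
  -- there is a good class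
  obtain ⟨c, hcR, hc⟩ : ∃ c ∈ R, (990 : ℝ) / (18 * K + 1) ^ 4 ≤
      ∑ l ∈ (P K (1, 1)).filter (fun l => cls l = c), x ^ len l * V (fin (1, 1) l) := by
    by_contra hcon
    push Not at hcon
    have hne : R.Nonempty := by
      rw [← Finset.card_pos, hcard]; positivity
    have := Finset.sum_lt_sum_of_nonempty hne hcon
    rw [Finset.sum_const, hcard, nsmul_eq_mul] at this
    have h5 : (((18 * K + 1) ^ 4 : ℕ) : ℝ) * (990 / (18 * K + 1) ^ 4) = 990 := by
      push_cast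
      field_simp
    rw [h5] at this
    linarith
  set S := (P K (1, 1)).filter (fun l => cls l = c) with hS
  have hle : ∑ l ∈ S, x ^ len l * (V (fin (1, 1) l) : ℝ) ≤
      S.card * (x ^ (c.1 + 2 * c.2.1 + 2 * c.2.2.1 + c.2.2.2) * 1000) := by
    rw [← nsmul_eq_mul]
    apply Finset.sum_le_card_nsmul
    intro l hl
    rw [hS, Finset.mem_filter] at hl
    have hlen : len l = c.1 + 2 * c.2.1 + 2 * c.2.2.1 + c.2.2.2 := by
      rw [← hl.2]; rfl
    rw [hlen]
    have h1 : (V (fin (1, 1) l) : ℝ) ≤ 1000 := by exact_mod_cast V_le _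
    have h2 : 0 < x ^ (c.1 + 2 * c.2.1 + 2 * c.2.2.1 + c.2.2.2) := pow_pos x_pos _
    exact mul_le_mul_of_nonneg_left h1 h2.le
  have hK : (0 : ℝ) < (18 * K + 1) ^ 4 := by positivity
  have hfinal : (0.99 : ℝ) ≤ S.card * x ^ (c.1 + 2 * c.2.1 + 2 * c.2.2.1 + c.2.2.2)
      * (18 * K + 1) ^ 4 := by
    have h6 := hc.trans hle
    rw [div_le_iff₀ hK] at h6
    nlinarith
  have hSne : S.Nonempty := by
    rw [Finset.nonempty_iff_ne_empty]
    intro h
    rw [h] at hfinal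
    simp at hfinal
    norm_num at hfinal
  obtain ⟨l0, hl0⟩ := hSne
  refine ⟨S, c, fin (1, 1) l0, ?_, ?_, ⟨l0, hl0⟩, hfinal⟩
  · rw [hS, Finset.mem_filter] at hl0
    exact (mem_P h11 hl0.1).2.2.1
  · intro l hl
    rw [hS, Finset.mem_filter] at hl hl0
    refine ⟨(mem_P h11 hl.1).1, (mem_P h11 hl.1).2.1, ?_, hl.2⟩
    have hcc : cls l = cls l0 := by rw [hl.2, hl0.2]
    simp only [cls, Prod.mk.injEq] at hcc
    obtain ⟨e1, e2, e3, e4⟩ := hcc
    ext
    · rw [fin_fst, fin_fst, e1, e2, e3]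
    · rw [fin_snd, fin_snd, e2, e3, e4]

lemma pads : ∃ C : ℕ, ∀ e ∈ box, ∃ l, Valid e l ∧ fin e l = (1, 1) ∧ len l ≤ C := by
  choose f hf using pad_exists
  refine ⟨box.sup (fun e => len (f e)), fun e he => ⟨f e, (hf e).1, (hf e).2, ?_⟩⟩
  exact Finset.le_sup (f := fun e => len (f e)) he

lemma growth (D : ℝ) (hD : 0 < D) : ∃ N0 : ℕ, ∀ N ≥ N0,
    (4.18 : ℝ) ^ (3 * N) * (18 * N + 1) ^ 8 ≤ D * (2025 / 484 : ℝ) ^ (3 * N) := by
  have hr : |((4.18 * 484 / 2025 : ℝ)) ^ 3| < 1 := by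
    rw [abs_of_pos (by positivity)]
    norm_num
  have ht := tendsto_pow_const_mul_const_pow_of_abs_lt_one 8 hr
  have hE : (0 : ℝ) < D / 19 ^ 8 := by positivity
  obtain ⟨N0, hN0⟩ := (ht.eventually (gt_mem_nhds hE)).exists_forall_of_atTop
  refine ⟨max N0 1, fun N hN => ?_⟩
  have h1 := hN0 N (le_trans (le_max_left _ _) hN)
  have hN1 : (1 : ℝ) ≤ N := by exact_mod_cast le_trans (le_max_right _ _) hN
  have h2 : (18 * N + 1 : ℝ) ^ 8 ≤ (19 * N) ^ 8 := by
    apply pow_le_pow_left₀ (by positivity)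
    linarith
  have h3 : (4.18 : ℝ) ^ (3 * N) = (((4.18 * 484 / 2025 : ℝ)) ^ 3) ^ N * (2025 / 484 : ℝ) ^ (3 * N) := by
    rw [← pow_mul, ← mul_pow]
    norm_num
  rw [h3]
  have hpos : (0 : ℝ) < (2025 / 484 : ℝ) ^ (3 * N) := by positivity
  have hpos2 : (0 : ℝ) ≤ (((4.18 * 484 / 2025 : ℝ)) ^ 3) ^ N := by positivity
  calc (((4.18 * 484 / 2025 : ℝ)) ^ 3) ^ N * (2025 / 484 : ℝ) ^ (3 * N) * (18 * N + 1) ^ 8
      ≤ (((4.18 * 484 / 2025 : ℝ)) ^ 3) ^ N * (2025 / 484 : ℝ) ^ (3 * N) * (19 * N) ^ 8 := by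
        apply mul_le_mul_of_nonneg_left h2 (by positivity)
    _ = ((N : ℝ) ^ 8 * (((4.18 * 484 / 2025 : ℝ)) ^ 3) ^ N) * 19 ^ 8 * (2025 / 484 : ℝ) ^ (3 * N) := by
        ring
    _ ≤ (D / 19 ^ 8) * 19 ^ 8 * (2025 / 484 : ℝ) ^ (3 * N) := by
        apply mul_le_mul_of_nonneg_right _ hpos.le
        apply mul_le_mul_of_nonneg_right h1.le (by positivity)
    _ = D * (2025 / 484 : ℝ) ^ (3 * N) := by
        field_simp

/-- the combinatorial core of the lower bound -/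
theorem core (N0 : ℕ) : ∃ N ≥ N0, ∃ S : Finset (List Step),
    (∀ l ∈ S, Valid (1, 1) l ∧ cA l = N ∧ cP l = N ∧ cQ l = N ∧ cB l = N) ∧
    (4.18 : ℝ) ^ (3 * N) ≤ S.card := by
  classical
  obtain ⟨C, hC⟩ := pads
  have hD : (0 : ℝ) < (0.99 * x ^ C) ^ 2 := by have := x_pos; positivity
  obtain ⟨N1, hN1⟩ := growth _ hD
  set K := max N0 N1 with hKdef
  obtain ⟨S, c, e, he, hS, ⟨l0, hl0⟩, hcount⟩ := class_exists K
  obtain ⟨pd, hpv, hpf, hpl⟩ := hC e he
  -- the padded counts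
  obtain ⟨hK0, hv0, hf0, hc0⟩ := hS l0 hl0
  have hloop : ∀ l ∈ S, Valid (1, 1) (l ++ pd) ∧ fin (1, 1) (l ++ pd) = (1, 1) ∧
      cls (l ++ pd) = (c.1 + cA pd, c.2.1 + cP pd, c.2.2.1 + cQ pd, c.2.2.2 + cB pd) := by
    intro l hl
    obtain ⟨_, h2, h3, h4⟩ := hS l hl
    refine ⟨?_, ?_, ?_⟩
    · rw [valid_append, h3]; exact ⟨h2, hpv⟩
    · rw [fin_append, h3, hpf]
    · rw [← h4]; simp [cls]
  set A := c.1 + cA pd with hA
  set Pp := c.2.1 + cP pd with hPp
  set Q := c.2.2.1 + cQ pd with hQ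
  set B := c.2.2.2 + cB pd with hB
  obtain ⟨_, hf1, hcl⟩ := hloop l0 hl0
  simp only [cls, Prod.mk.injEq] at hcl
  obtain ⟨g1, g2, g3, g4⟩ := hcl
  have e1 : (A : ℤ) - 2 * Pp + Q = 0 := by
    have := fin_fst (1, 1) (l0 ++ pd)
    rw [hf1, g1, g2, g3] at this
    simp at this
    linarith
  have e2 : (B : ℤ) - 2 * Q + Pp = 0 := by
    have := fin_snd (1, 1) (l0 ++ pd)
    rw [hf1, g2, g3, g4] at this
    simp at this
    linarith
  set N := Pp + Q with hN
  have hAB : A + B = N := by omega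
  have hKN : K ≤ N := by
    have := cPQ_length (l0 ++ pd)
    rw [g2, g3] at this
    simp only [List.length_append] at this
    omega
  refine ⟨N, le_trans (le_max_left _ _) hKN,
    (S ×ˢ S).image (fun p => (p.1 ++ pd) ++ (p.2 ++ pd).map mir), ?_, ?_⟩
  · intro l hl
    rw [Finset.mem_image] at hl
    obtain ⟨⟨l1, l2⟩, hl12, rfl⟩ := hl
    rw [Finset.mem_product] at hl12
    obtain ⟨v1, f1, k1⟩ := hloop l1 hl12.1
    obtain ⟨v2, f2, k2⟩ := hloop l2 hl12.2
    simp only [cls, Prod.mk.injEq] at k1 k2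
    obtain ⟨a1, a2, a3, a4⟩ := k1
    obtain ⟨b1, b2, b3, b4⟩ := k2
    refine ⟨?_, ?_, ?_, ?_, ?_⟩
    · show Valid (1, 1) ((l1 ++ pd) ++ (l2 ++ pd).map mir)
      rw [valid_append, f1]
      refine ⟨v1, ?_⟩
      have := (valid_mir (1, 1) (l2 ++ pd)).mpr v2
      exact this
    · show cA ((l1 ++ pd) ++ (l2 ++ pd).map mir) = N
      rw [cA_append, cA_mir, a1, b4]; omega
    · show cP ((l1 ++ pd) ++ (l2 ++ pd).map mir) = N
      rw [cP_append, cP_mir, a2, b3]
    · show cQ ((l1 ++ pd) ++ (l2 ++ pd).map mir) = N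
      rw [cQ_append, cQ_mir, a3, b2]; omega
    · show cB ((l1 ++ pd) ++ (l2 ++ pd).map mir) = N
      rw [cB_append, cB_mir, a4, b1]; omega
  · rw [Finset.card_image_of_injOn]
    · rw [Finset.card_product]
      push_cast
      have hlen : 3 * N = (c.1 + 2 * c.2.1 + 2 * c.2.2.1 + c.2.2.2) + len pd := by
        have : len pd = cA pd + 2 * cP pd + 2 * cQ pd + cB pd := rfl
        omega
      have hxp := x_pos
      have hx1 : x ≤ 1 := by norm_num [x]
      -- lower bound for the class size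
      have h1 : (0.99 : ℝ) * x ^ C ≤ S.card * x ^ (3 * N) * (18 * N + 1) ^ 4 := by
        rw [hlen, pow_add]
        have h2 : x ^ C ≤ x ^ len pd := pow_le_pow_of_le_one hxp.le hx1 hpl
        have h3 : ((18 * K + 1 : ℝ)) ^ 4 ≤ (18 * N + 1) ^ 4 := by
          apply pow_le_pow_left₀ (by positivity)
          have : (K : ℝ) ≤ N := by exact_mod_cast hKN
          linarith
        calc (0.99 : ℝ) * x ^ C ≤ (S.card * x ^ (c.1 + 2 * c.2.1 + 2 * c.2.2.1 + c.2.2.2)
              * (18 * K + 1) ^ 4) * x ^ len pd :=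
              mul_le_mul hcount h2 (by positivity) (by positivity)
          _ ≤ (S.card * x ^ (c.1 + 2 * c.2.1 + 2 * c.2.2.1 + c.2.2.2)
              * (18 * N + 1) ^ 4) * x ^ len pd := by
              apply mul_le_mul_of_nonneg_right _ (by positivity)
              apply mul_le_mul_of_nonneg_left h3 (by positivity)
          _ = _ := by ring
      have h2 := hN1 N (le_trans (le_max_right _ _) hKN)
      have hxx : x ^ (3 * N) * x ^ (3 * N) * (2025 / 484 : ℝ) ^ (3 * N) = 1 := by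
        rw [← mul_pow, ← mul_pow]
        have : x * x * (2025 / 484 : ℝ) = 1 := by norm_num [x]
        rw [this, one_pow]
      have h18 : (0 : ℝ) < (18 * N + 1) ^ 4 := by positivity
      have h3 : (0.99 * x ^ C) ^ 2 ≤ (S.card * x ^ (3 * N) * (18 * N + 1) ^ 4 : ℝ) ^ 2 :=
        pow_le_pow_left₀ (by positivity) h1 2
      have hz : (0 : ℝ) < (2025 / 484 : ℝ) ^ (3 * N) := by positivity
      have h4 : (4.18 : ℝ) ^ (3 * N) * (18 * N + 1) ^ 8 ≤
          (S.card * S.card) * (18 * N + 1 : ℝ) ^ 8 := by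
        calc (4.18 : ℝ) ^ (3 * N) * (18 * N + 1) ^ 8
            ≤ (0.99 * x ^ C) ^ 2 * (2025 / 484 : ℝ) ^ (3 * N) := h2
          _ ≤ (S.card * x ^ (3 * N) * (18 * N + 1) ^ 4 : ℝ) ^ 2 * (2025 / 484 : ℝ) ^ (3 * N) :=
              mul_le_mul_of_nonneg_right h3 hz.le
          _ = (S.card * S.card) * (18 * N + 1 : ℝ) ^ 8 *
              (x ^ (3 * N) * x ^ (3 * N) * (2025 / 484 : ℝ) ^ (3 * N)) := by ring
          _ = _ := by rw [hxx, mul_one]
      exact le_of_mul_le_mul_right h4 (by positivity)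
    · rintro ⟨a, b⟩ hab ⟨a', b'⟩ hab' h
      simp only [Finset.coe_product, Set.mem_prod, Finset.mem_coe] at hab hab'
      simp only at h
      have hl1 : (a ++ pd).length = (a' ++ pd).length := by
        rw [List.length_append, List.length_append, (hS a hab.1).1, (hS a' hab'.1).1]
      obtain ⟨h1, h2⟩ := List.append_inj h hl1
      have h3 := List.append_cancel_right h1
      have h4 := List.map_injective_iff.mpr mir_injective h2
      have h5 := List.append_cancel_right h4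
      rw [h3, h5]

end MP01b126.LB
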