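import Pool.Agent.Lib.MP_01b126_co.LB.Loops
import Pool.Agent.Lib.MP_01b126_co.Edges

/-!
# MP_01b126_co, lower bound, part 2: the triangulation of a strip of width three given by a step list
-/

namespace MP01b126.LB

/-- letter counts `(a, p, q, b)`: the current profile is the path
`(0,a), (1,p), (2,q), (3,b)` -/
abbrev Cnt := ℕ × ℕ × ℕ × ℕ

/-- lattice point with natural coordinates -/
def pn (i y : ℕ) : Pt := ((i : ℤ), (y : ℤ))

/-- fan in the first column -/
def fanL (p a : ℕ) : ℕ → Finset (Finset Pt)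
  | 0 => ∅
  | G + 1 => insert {pn 0 (a + G), pn 1 p, pn 0 (a + G + 1)} (fanL p a G)

/-- fan in the third column -/
def fanR (q b : ℕ) : ℕ → Finset (Finset Pt)
  | 0 => ∅
  | G + 1 => insert {pn 2 q, pn 3 (b + G), pn 3 (b + G + 1)} (fanR q b G)

/-- the two triangles of a left letter -/
def pairL (A p q : ℕ) (flip : Bool) : Finset (Finset Pt) :=
  if flip then {{pn 0 A, pn 1 p, pn 2 q}, {pn 0 A, pn 2 q, pn 1 (p + 1)}}
  else {{pn 0 A, pn 1 p, pn 1 (p + 1)}, {pn 1 p, pn 2 q, pn 1 (p + 1)}}

/-- the two triangles of a right letter -/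
def pairR (p q B : ℕ) (flip : Bool) : Finset (Finset Pt) :=
  if flip then {{pn 1 p, pn 2 q, pn 3 B}, {pn 1 p, pn 3 B, pn 2 (q + 1)}}
  else {{pn 2 q, pn 3 B, pn 2 (q + 1)}, {pn 1 p, pn 2 q, pn 2 (q + 1)}}

/-- the triangles of a step -/
def stepTris (c : Cnt) (t : Step) : Finset (Finset Pt) :=
  if t.1 then fanL c.2.1 c.1 t.2.1 ∪ pairL (c.1 + t.2.1) c.2.1 c.2.2.1 t.2.2
  else fanR c.2.2.1 c.2.2.2 t.2.1 ∪ pairR c.2.1 c.2.2.1 (c.2.2.2 + t.2.1) t.2.2

/-- counts after a step -/
def nextc (c : Cnt) (t : Step) : Cnt :=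
  if t.1 then (c.1 + t.2.1, c.2.1 + 1, c.2.2.1, c.2.2.2)
  else (c.1, c.2.1, c.2.2.1 + 1, c.2.2.2 + t.2.1)

/-- the triangles of a step list -/
def tris : Cnt → List Step → Finset (Finset Pt)
  | _, [] => ∅
  | c, t :: l => stepTris c t ∪ tris (nextc c t) l

/-- final counts -/
def endc : Cnt → List Step → Cnt
  | c, [] => c
  | c, t :: l => endc (nextc c t) l

/-- the state `(X₁, X₂)` of a profile -/
def stt (c : Cnt) : ℤ × ℤ :=
  (1 + c.1 + c.2.2.1 - 2 * c.2.1, 1 + c.2.2.2 + c.2.1 - 2 * c.2.2.1)

lemma stt_next (c : Cnt) (t : Step) : stt (nextc c t) = nxt (stt c) t := by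
  obtain ⟨a, p, q, b⟩ := c
  obtain ⟨l, G, f⟩ := t
  cases l
  · simp only [stt, nextc, nxt]
    ext <;> simp <;> ring
  · simp only [stt, nextc, nxt]
    ext <;> simp <;> ring

lemma endc_eq (c : Cnt) (l : List Step) :
    endc c l = (c.1 + cA l, c.2.1 + cP l, c.2.2.1 + cQ l, c.2.2.2 + cB l) := by
  induction l generalizing c with
  | nil => simp [endc]
  | cons t l ih =>
    rw [endc, ih]
    simp only [cA_cons, cP_cons, cQ_cons, cB_cons, nextc]
    obtain ⟨x, G, f⟩ := t
    cases x <;> simp <;> omega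

/-- the flip condition in terms of counts -/
lemma ok_iff {c : Cnt} {t : Step} (h : okStep (stt c) t) (hf : t.2.2 = true) :
    (t.1 = true → c.1 + t.2.1 + c.2.2.1 = 2 * c.2.1 + 1) ∧
    (t.1 = false → c.2.1 + (c.2.2.2 + t.2.1) = 2 * c.2.2.1 + 1) := by
  have h1 := h hf
  constructor
  · intro h2
    simp only [h2, if_true, stt] at h1
    omega
  · intro h2
    simp only [h2, stt] at h1
    simp at h1
    omega

/-! ### unimodularity, positions, number -/

lemma det3_pn (i y j z k w : ℕ) : det3 (pn i y) (pn j z) (pn k w) =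
    ((j : ℤ) - i) * ((w : ℤ) - y) - ((z : ℤ) - y) * ((k : ℤ) - i) := by
  simp only [det3, pn]

lemma fanL_uni (p a G : ℕ) : ∀ t ∈ fanL p a G, IsUni t := by
  induction G with
  | zero => simp [fanL]
  | succ G ih =>
    intro t ht
    rw [fanL, Finset.mem_insert] at ht
    rcases ht with rfl | ht
    · exact ⟨_, _, _, rfl, by rw [det3_pn]; push_cast; ring_nf; norm_num⟩
    · exact ih t ht

lemma fanR_uni (q b G : ℕ) : ∀ t ∈ fanR q b G, IsUni t := by
  induction G with
  | zero => simp [fanR]
  | succ G ih =>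
    intro t ht
    rw [fanR, Finset.mem_insert] at ht
    rcases ht with rfl | ht
    · exact ⟨_, _, _, rfl, by rw [det3_pn]; push_cast; ring_nf; norm_num⟩
    · exact ih t ht

lemma pairL_uni {A p q : ℕ} {f : Bool} (h : f = true → A + q = 2 * p + 1) :
    ∀ t ∈ pairL A p q f, IsUni t := by
  intro t ht
  cases f
  · simp only [pairL, Bool.false_eq_true, if_false, Finset.mem_insert, Finset.mem_singleton] at ht
    rcases ht with rfl | rfl
    · exact ⟨_, _, _, rfl, by rw [det3_pn]; push_cast; ring_nf; norm_num⟩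
    · exact ⟨_, _, _, rfl, by rw [det3_pn]; push_cast; ring_nf; norm_num⟩
  · have h1 : (A : ℤ) = 2 * p + 1 - q := by have := h rfl; omega
    simp only [pairL, if_true, Finset.mem_insert, Finset.mem_singleton] at ht
    rcases ht with rfl | rfl
    · exact ⟨_, _, _, rfl, by rw [det3_pn, h1]; push_cast; ring_nf; norm_num⟩
    · exact ⟨_, _, _, rfl, by rw [det3_pn, h1]; push_cast; ring_nf; norm_num⟩

lemma pairR_uni {p q B : ℕ} {f : Bool} (h : f = true → p + B = 2 * q + 1) :
    ∀ t ∈ pairR p q B f, IsUni t := by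
  intro t ht
  cases f
  · simp only [pairR, Bool.false_eq_true, if_false, Finset.mem_insert, Finset.mem_singleton] at ht
    rcases ht with rfl | rfl
    · exact ⟨_, _, _, rfl, by rw [det3_pn]; push_cast; ring_nf; norm_num⟩
    · exact ⟨_, _, _, rfl, by rw [det3_pn]; push_cast; ring_nf; norm_num⟩
  · have h1 : (B : ℤ) = 2 * q + 1 - p := by have := h rfl; omega
    simp only [pairR, if_true, Finset.mem_insert, Finset.mem_singleton] at ht
    rcases ht with rfl | rfl
    · exact ⟨_, _, _, rfl, by rw [det3_pn, h1]; push_cast; ring_nf; norm_num⟩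
    · exact ⟨_, _, _, rfl, by rw [det3_pn, h1]; push_cast; ring_nf; norm_num⟩

lemma stepTris_uni {c : Cnt} {t : Step} (h : okStep (stt c) t) : ∀ s ∈ stepTris c t, IsUni s := by
  intro s hs
  obtain ⟨x, G, f⟩ := t
  cases x
  · simp only [stepTris, Bool.false_eq_true, if_false, Finset.mem_union] at hs
    rcases hs with hs | hs
    · exact fanR_uni _ _ _ s hs
    · exact pairR_uni (fun hf => (ok_iff h hf).2 rfl) s hs
  · simp only [stepTris, if_true, Finset.mem_union] at hs
    rcases hs with hs | hs
    · exact fanL_uni _ _ _ s hs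
    · exact pairL_uni (fun hf => (ok_iff h hf).1 rfl) s hs

lemma tris_uni {c : Cnt} {l : List Step} (h : Valid (stt c) l) : ∀ s ∈ tris c l, IsUni s := by
  induction l generalizing c with
  | nil => simp [tris]
  | cons t l ih =>
    intro s hs
    rw [tris, Finset.mem_union] at hs
    rcases hs with hs | hs
    · exact stepTris_uni h.1 s hs
    · exact ih (by rw [stt_next]; exact h.2) s hs

lemma fanL_card (p a G : ℕ) : (fanL p a G).card ≤ G := by
  induction G with
  | zero => simp [fanL]
  | succ G ih =>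
    rw [fanL]; exact (Finset.card_insert_le _ _).trans (by omega)

lemma fanR_card (q b G : ℕ) : (fanR q b G).card ≤ G := by
  induction G with
  | zero => simp [fanR]
  | succ G ih =>
    rw [fanR]; exact (Finset.card_insert_le _ _).trans (by omega)

lemma pairL_card (A p q : ℕ) (f : Bool) : (pairL A p q f).card ≤ 2 := by
  cases f
  · simp only [pairL, Bool.false_eq_true, if_false]; exact Finset.card_le_two
  · simp only [pairL, if_true]; exact Finset.card_le_two

lemma pairR_card (p q B : ℕ) (f : Bool) : (pairR p q B f).card ≤ 2 := by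
  cases f
  · simp only [pairR, Bool.false_eq_true, if_false]; exact Finset.card_le_two
  · simp only [pairR, if_true]; exact Finset.card_le_two

lemma tris_card (c : Cnt) (l : List Step) : (tris c l).card ≤ len l := by
  induction l generalizing c with
  | nil => simp [tris]
  | cons t l ih =>
    rw [tris, len_cons]
    refine (Finset.card_union_le _ _).trans ?_
    have h1 : (stepTris c t).card ≤ 2 + t.2.1 := by
      obtain ⟨x, G, f⟩ := t
      cases x
      · simp only [stepTris, Bool.false_eq_true, if_false]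
        refine (Finset.card_union_le _ _).trans ?_
        have := fanR_card c.2.2.1 c.2.2.2 G
        have := pairR_card c.2.1 c.2.2.1 (c.2.2.2 + G) f
        omega
      · simp only [stepTris, if_true]
        refine (Finset.card_union_le _ _).trans ?_
        have := fanL_card c.2.1 c.1 G
        have := pairL_card (c.1 + G) c.2.1 c.2.2.1 f
        omega
    have := ih (nextc c t)
    omega

lemma pn_mem {N i y : ℕ} (hi : i ≤ 3) (hy : y ≤ N) : pn i y ∈ grid 3 N := by
  simp only [grid, pn, Finset.mem_product, Finset.mem_Icc]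
  omega

lemma tri_sub {N i y j z k w : ℕ} (h1 : i ≤ 3) (h2 : y ≤ N) (h3 : j ≤ 3) (h4 : z ≤ N)
    (h5 : k ≤ 3) (h6 : w ≤ N) : ({pn i y, pn j z, pn k w} : Finset Pt) ⊆ grid 3 N := by
  intro p hp
  simp only [Finset.mem_insert, Finset.mem_singleton] at hp
  rcases hp with rfl | rfl | rfl
  · exact pn_mem h1 h2
  · exact pn_mem h3 h4
  · exact pn_mem h5 h6

lemma fanL_sub {p a G N : ℕ} (hp : p ≤ N) (ha : a + G ≤ N) : ∀ t ∈ fanL p a G, t ⊆ grid 3 N := by
  induction G with
  | zero => simp [fanL]
  | succ G ih =>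
    intro t ht
    rw [fanL, Finset.mem_insert] at ht
    rcases ht with rfl | ht
    · apply tri_sub <;> omega
    · exact ih (by omega) t ht

lemma fanR_sub {q b G N : ℕ} (hq : q ≤ N) (hb : b + G ≤ N) : ∀ t ∈ fanR q b G, t ⊆ grid 3 N := by
  induction G with
  | zero => simp [fanR]
  | succ G ih =>
    intro t ht
    rw [fanR, Finset.mem_insert] at ht
    rcases ht with rfl | ht
    · apply tri_sub <;> omega
    · exact ih (by omega) t ht

lemma pairL_sub {A p q N : ℕ} {f : Bool} (hA : A ≤ N) (hp : p + 1 ≤ N) (hq : q ≤ N) :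
    ∀ t ∈ pairL A p q f, t ⊆ grid 3 N := by
  intro t ht
  cases f
  · simp only [pairL, Bool.false_eq_true, if_false, Finset.mem_insert, Finset.mem_singleton] at ht
    rcases ht with rfl | rfl <;> apply tri_sub <;> omega
  · simp only [pairL, if_true, Finset.mem_insert, Finset.mem_singleton] at ht
    rcases ht with rfl | rfl <;> apply tri_sub <;> omega

lemma pairR_sub {p q B N : ℕ} {f : Bool} (hp : p ≤ N) (hq : q + 1 ≤ N) (hB : B ≤ N) :
    ∀ t ∈ pairR p q B f, t ⊆ grid 3 N := by
  intro t ht
  cases f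
  · simp only [pairR, Bool.false_eq_true, if_false, Finset.mem_insert, Finset.mem_singleton] at ht
    rcases ht with rfl | rfl <;> apply tri_sub <;> omega
  · simp only [pairR, if_true, Finset.mem_insert, Finset.mem_singleton] at ht
    rcases ht with rfl | rfl <;> apply tri_sub <;> omega

lemma tris_sub {c : Cnt} {l : List Step} {N : ℕ} (h1 : (endc c l).1 ≤ N) (h2 : (endc c l).2.1 ≤ N)
    (h3 : (endc c l).2.2.1 ≤ N) (h4 : (endc c l).2.2.2 ≤ N) : ∀ s ∈ tris c l, s ⊆ grid 3 N := by
  induction l generalizing c with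
  | nil => simp [tris]
  | cons t l ih =>
    intro s hs
    rw [tris, Finset.mem_union] at hs
    rcases hs with hs | hs
    · rw [endc, endc_eq] at h1 h2 h3 h4
      simp only at h1 h2 h3 h4
      obtain ⟨x, G, f⟩ := t
      cases x
      · simp only [stepTris, Bool.false_eq_true, if_false, Finset.mem_union] at hs
        simp only [nextc, Bool.false_eq_true, if_false] at h1 h2 h3 h4
        rcases hs with hs | hs
        · exact fanR_sub (by omega) (by omega) s hs
        · exact pairR_sub (by omega) (by omega) (by omega) s hs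
      · simp only [stepTris, if_true, Finset.mem_union] at hs
        simp only [nextc, if_true] at h1 h2 h3 h4
        rcases hs with hs | hs
        · exact fanL_sub (by omega) (by omega) s hs
        · exact pairL_sub (by omega) (by omega) (by omega) s hs
    · exact ih h1 h2 h3 h4 s hs

/-! ### covering -/

/-- linear interpolation -/
def lin (l r : ℕ) (s : ℝ) : ℝ := (1 - s) * l + s * r

/-- the region between two profiles is covered by `S` -/
def Cov (S : Set (ℝ × ℝ)) (c c' : Cnt) : Prop := ∀ s y : ℝ, 0 ≤ s → s ≤ 1 →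
  (lin c.1 c.2.1 s ≤ y → y < lin c'.1 c'.2.1 s → (s, y) ∈ S) ∧
  (lin c.2.1 c.2.2.1 s ≤ y → y < lin c'.2.1 c'.2.2.1 s → (1 + s, y) ∈ S) ∧
  (lin c.2.2.1 c.2.2.2 s ≤ y → y < lin c'.2.2.1 c'.2.2.2 s → (2 + s, y) ∈ S)

lemma Cov.trans {S S' : Set (ℝ × ℝ)} {c c' c'' : Cnt} (h : Cov S c c') (h' : Cov S' c' c'') :
    Cov (S ∪ S') c c'' := by
  intro s y h0 h1
  obtain ⟨a1, a2, a3⟩ := h s y h0 h1
  obtain ⟨b1, b2, b3⟩ := h' s y h0 h1
  refine ⟨fun k1 k2 => ?_, fun k1 k2 => ?_, fun k1 k2 => ?_⟩
  · rcases lt_or_ge y (lin c'.1 c'.2.1 s) with h2 | h2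
    · exact Or.inl (a1 k1 h2)
    · exact Or.inr (b1 h2 k2)
  · rcases lt_or_ge y (lin c'.2.1 c'.2.2.1 s) with h2 | h2
    · exact Or.inl (a2 k1 h2)
    · exact Or.inr (b2 h2 k2)
  · rcases lt_or_ge y (lin c'.2.2.1 c'.2.2.2 s) with h2 | h2
    · exact Or.inl (a3 k1 h2)
    · exact Or.inr (b3 h2 k2)

lemma Cov.mono {S S' : Set (ℝ × ℝ)} {c c' : Cnt} (h : Cov S c c') (hS : S ⊆ S') : Cov S' c c' := by
  intro s y h0 h1
  obtain ⟨a1, a2, a3⟩ := h s y h0 h1
  exact ⟨fun k1 k2 => hS (a1 k1 k2), fun k1 k2 => hS (a2 k1 k2), fun k1 k2 => hS (a3 k1 k2)⟩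

lemma Cov.refl (S : Set (ℝ × ℝ)) (c : Cnt) : Cov S c c := by
  intro s y h0 h1
  refine ⟨fun k1 k2 => absurd k2 (not_lt.mpr k1), fun k1 k2 => absurd k2 (not_lt.mpr k1),
    fun k1 k2 => absurd k2 (not_lt.mpr k1)⟩

/-- union of the triangles -/
def un (T : Finset (Finset Pt)) : Set (ℝ × ℝ) := ⋃ t ∈ T, hull t

lemma un_union (T T' : Finset (Finset Pt)) : un (T ∪ T') = un T ∪ un T' := by
  classical
  simp only [un, Finset.set_biUnion_union]

lemma un_insert (t : Finset Pt) (T : Finset (Finset Pt)) : un (insert t T) = hull t ∪ un T := by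
  classical
  simp only [un, Finset.set_biUnion_insert]

lemma un_singleton (t : Finset Pt) : un {t} = hull t := by simp [un]

lemma detR_pn (i y j z : ℕ) (x : ℝ × ℝ) : detR (pn i y) (pn j z) x =
    ((j : ℝ) - i) * (x.2 - y) - ((z : ℝ) - y) * (x.1 - i) := by
  simp [detR, pn]

lemma cov_A (a p q b : ℕ) : Cov (hull {pn 0 a, pn 1 p, pn 0 (a + 1)}) (a, p, q, b) (a + 1, p, q, b) := by
  intro s y h0 h1
  refine ⟨fun k1 k2 => ?_, fun k1 k2 => absurd k2 (not_lt.mpr k1), fun k1 k2 => absurd k2 (not_lt.mpr k1)⟩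
  rw [mem_hull_iff (by rw [det3_pn]; push_cast; ring_nf; norm_num)]
  simp only [lin] at k1 k2
  simp only [detR_pn]
  push_cast at *
  refine ⟨by linarith, by linarith, by linarith⟩

lemma cov_B (a p q b : ℕ) : Cov (hull {pn 2 q, pn 3 b, pn 3 (b + 1)}) (a, p, q, b) (a, p, q, b + 1) := by
  intro s y h0 h1
  refine ⟨fun k1 k2 => absurd k2 (not_lt.mpr k1), fun k1 k2 => absurd k2 (not_lt.mpr k1), fun k1 k2 => ?_⟩
  rw [mem_hull_iff (by rw [det3_pn]; push_cast; ring_nf; norm_num)]
  simp only [lin] at k1 k2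
  simp only [detR_pn]
  push_cast at *
  refine ⟨by linarith, by linarith, by linarith⟩

lemma cov_L (A p q b : ℕ) : Cov (un (pairL A p q false)) (A, p, q, b) (A, p + 1, q, b) := by
  intro s y h0 h1
  simp only [pairL, Bool.false_eq_true, if_false, un_insert, un_singleton]
  refine ⟨fun k1 k2 => Or.inl ?_, fun k1 k2 => Or.inr ?_, fun k1 k2 => absurd k2 (not_lt.mpr k1)⟩
  · rw [mem_hull_iff (by rw [det3_pn]; push_cast; ring_nf; norm_num)]
    simp only [lin] at k1 k2
    simp only [detR_pn]
    push_cast at *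
    refine ⟨by linarith, by linarith, by linarith⟩
  · rw [mem_hull_iff (by rw [det3_pn]; push_cast; ring_nf; norm_num)]
    simp only [lin] at k1 k2
    simp only [detR_pn]
    push_cast at *
    refine ⟨by linarith, by linarith, by linarith⟩

lemma cov_LF {A p q : ℕ} (b : ℕ) (h : A + q = 2 * p + 1) :
    Cov (un (pairL A p q true)) (A, p, q, b) (A, p + 1, q, b) := by
  intro s y h0 h1
  have hA : (A : ℝ) = 2 * p + 1 - q := by
    have : (A : ℝ) + q = 2 * p + 1 := by exact_mod_cast h
    linarith
  have hAz : (A : ℤ) = 2 * p + 1 - q := by omega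
  simp only [pairL, if_true, un_insert, un_singleton]
  refine ⟨fun k1 k2 => ?_, fun k1 k2 => ?_, fun k1 k2 => absurd k2 (not_lt.mpr k1)⟩
  · simp only [lin] at k1 k2
    rw [hA] at k1 k2
    rcases le_total (2 * (y - (2 * p + 1 - q)) - ((q : ℝ) - (2 * p + 1 - q)) * s) 0 with h3 | h3
    · left
      rw [mem_hull_iff (by rw [det3_pn, hAz]; push_cast; ring_nf; norm_num)]
      simp only [detR_pn]
      rw [hA]
      push_cast at *
      refine ⟨by linarith, by linarith, by linarith⟩
    · right
      rw [mem_hull_iff (by rw [det3_pn, hAz]; push_cast; ring_nf; norm_num)]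
      simp only [detR_pn]
      rw [hA]
      push_cast at *
      refine ⟨by linarith, by linarith, by linarith⟩
  · simp only [lin] at k1 k2
    rcases le_total (2 * (y - (2 * p + 1 - q)) - ((q : ℝ) - (2 * p + 1 - q)) * (1 + s)) 0 with h3 | h3
    · left
      rw [mem_hull_iff (by rw [det3_pn, hAz]; push_cast; ring_nf; norm_num)]
      simp only [detR_pn]
      rw [hA]
      push_cast at *
      refine ⟨by linarith, by linarith, by linarith⟩
    · right
      rw [mem_hull_iff (by rw [det3_pn, hAz]; push_cast; ring_nf; norm_num)]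
      simp only [detR_pn]
      rw [hA]
      push_cast at *
      refine ⟨by linarith, by linarith, by linarith⟩

lemma cov_R (a p q B : ℕ) : Cov (un (pairR p q B false)) (a, p, q, B) (a, p, q + 1, B) := by
  intro s y h0 h1
  simp only [pairR, Bool.false_eq_true, if_false, un_insert, un_singleton]
  refine ⟨fun k1 k2 => absurd k2 (not_lt.mpr k1), fun k1 k2 => Or.inr ?_, fun k1 k2 => Or.inl ?_⟩
  · rw [mem_hull_iff (by rw [det3_pn]; push_cast; ring_nf; norm_num)]
    simp only [lin] at k1 k2
    simp only [detR_pn]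
    push_cast at *
    refine ⟨by linarith, by linarith, by linarith⟩
  · rw [mem_hull_iff (by rw [det3_pn]; push_cast; ring_nf; norm_num)]
    simp only [lin] at k1 k2
    simp only [detR_pn]
    push_cast at *
    refine ⟨by linarith, by linarith, by linarith⟩

lemma cov_RF {p q B : ℕ} (a : ℕ) (h : p + B = 2 * q + 1) :
    Cov (un (pairR p q B true)) (a, p, q, B) (a, p, q + 1, B) := by
  intro s y h0 h1
  have hA : (B : ℝ) = 2 * q + 1 - p := by
    have : (p : ℝ) + B = 2 * q + 1 := by exact_mod_cast h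
    linarith
  have hAz : (B : ℤ) = 2 * q + 1 - p := by omega
  simp only [pairR, if_true, un_insert, un_singleton]
  refine ⟨fun k1 k2 => absurd k2 (not_lt.mpr k1), fun k1 k2 => ?_, fun k1 k2 => ?_⟩
  · simp only [lin] at k1 k2
    rcases le_total (2 * (y - p) - (2 * (q : ℝ) + 1 - p - p) * s) 0 with h3 | h3
    · left
      rw [mem_hull_iff (by rw [det3_pn, hAz]; push_cast; ring_nf; norm_num)]
      simp only [detR_pn]
      rw [hA]
      push_cast at *
      refine ⟨by linarith, by linarith, by linarith⟩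
    · right
      rw [mem_hull_iff (by rw [det3_pn, hAz]; push_cast; ring_nf; norm_num)]
      simp only [detR_pn]
      rw [hA]
      push_cast at *
      refine ⟨by linarith, by linarith, by linarith⟩
  · simp only [lin] at k1 k2
    rw [hA] at k1 k2
    rcases le_total (2 * (y - p) - (2 * (q : ℝ) + 1 - p - p) * (1 + s)) 0 with h3 | h3
    · left
      rw [mem_hull_iff (by rw [det3_pn, hAz]; push_cast; ring_nf; norm_num)]
      simp only [detR_pn]
      rw [hA]
      push_cast at *
      refine ⟨by linarith, by linarith, by linarith⟩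
    · right
      rw [mem_hull_iff (by rw [det3_pn, hAz]; push_cast; ring_nf; norm_num)]
      simp only [detR_pn]
      rw [hA]
      push_cast at *
      refine ⟨by linarith, by linarith, by linarith⟩

lemma cov_fanL (a p q b G : ℕ) : Cov (un (fanL p a G)) (a, p, q, b) (a + G, p, q, b) := by
  induction G with
  | zero => exact Cov.refl _ _
  | succ G ih =>
    rw [fanL, un_insert]
    have := ih.trans (cov_A (a + G) p q b)
    rw [Set.union_comm] at this
    exact this

lemma cov_fanR (a p q b G : ℕ) : Cov (un (fanR q b G)) (a, p, q, b) (a, p, q, b + G) := by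
  induction G with
  | zero => exact Cov.refl _ _
  | succ G ih =>
    rw [fanR, un_insert]
    have := ih.trans (cov_B a p q (b + G))
    rw [Set.union_comm] at this
    exact this

lemma cov_step {c : Cnt} {t : Step} (h : okStep (stt c) t) : Cov (un (stepTris c t)) c (nextc c t) := by
  obtain ⟨a, p, q, b⟩ := c
  obtain ⟨x, G, f⟩ := t
  cases x
  · simp only [stepTris, nextc, Bool.false_eq_true, if_false, un_union]
    apply (cov_fanR a p q b G).trans
    cases f
    · exact cov_R a p q (b + G)
    · exact cov_RF a ((ok_iff h rfl).2 rfl)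
  · simp only [stepTris, nextc, if_true, un_union]
    apply (cov_fanL a p q b G).trans
    cases f
    · exact cov_L (a + G) p q b
    · exact cov_LF b ((ok_iff h rfl).1 rfl)

lemma cov_tris {c : Cnt} {l : List Step} (h : Valid (stt c) l) : Cov (un (tris c l)) c (endc c l) := by
  induction l generalizing c with
  | nil => exact Cov.refl _ _
  | cons t l ih =>
    rw [tris, un_union, endc]
    exact (cov_step h.1).trans (ih (by rw [stt_next]; exact h.2))

lemma isClosed_un (T : Finset (Finset Pt)) : IsClosed (un T) :=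
  T.finite_toSet.isClosed_biUnion (fun s _ => isClosed_hull s)

/-- a loop gives a triangulation of the strip -/
theorem strip_triangulation {l : List Step} {N : ℕ} (hN : 0 < N) (hv : Valid (1, 1) l)
    (h1 : cA l = N) (h2 : cP l = N) (h3 : cQ l = N) (h4 : cB l = N) :
    IsTriangulation 3 N (tris (0, 0, 0, 0) l) := by
  have hst : stt (0, 0, 0, 0) = (1, 1) := by simp [stt]
  have hv' : Valid (stt (0, 0, 0, 0)) l := by rw [hst]; exact hv
  have hend : endc (0, 0, 0, 0) l = (N, N, N, N) := by
    rw [endc_eq]; simp [h1, h2, h3, h4]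
  apply isTriangulation_of_cover
  · exact tris_uni hv'
  · exact tris_sub (by rw [hend]) (by rw [hend]) (by rw [hend]) (by rw [hend])
  · have hc := cov_tris hv'
    rw [hend] at hc
    have hopen : Set.Icc (0 : ℝ) 3 ×ˢ Set.Ico (0 : ℝ) N ⊆ un (tris (0, 0, 0, 0) l) := by
      rintro ⟨x, y⟩ ⟨⟨hx0, hx3⟩, hy0, hyN⟩
      simp only at hx0 hx3 hy0 hyN
      have hl0 : ∀ s, lin 0 0 s = 0 := by intro s; simp [lin]
      have hlN : ∀ s, lin N N s = N := by intro s; simp only [lin]; ring
      rcases le_total x 1 with hx1 | hx1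
      · have := (hc x y hx0 hx1).1
        simp only [hl0, hlN] at this
        exact this hy0 hyN
      · rcases le_total x 2 with hx2 | hx2
        · have := (hc (x - 1) y (by linarith) (by linarith)).2.1
          simp only [hl0, hlN] at this
          have h5 := this hy0 hyN
          have e : 1 + (x - 1) = x := by ring
          rw [e] at h5; exact h5
        · have := (hc (x - 2) y (by linarith) (by linarith)).2.2
          simp only [hl0, hlN] at this
          have h5 := this hy0 hyN
          have e : 2 + (x - 2) = x := by ring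
          rw [e] at h5; exact h5
    have hcl : closure (Set.Icc (0 : ℝ) 3 ×ˢ Set.Ico (0 : ℝ) N) ⊆ un (tris (0, 0, 0, 0) l) :=
      closure_minimal hopen (isClosed_un _)
    rw [closure_prod_eq, closure_Icc, closure_Ico] at hcl
    · intro x hx
      apply hcl
      simpa [rect] using hx
    · have : (0 : ℝ) < N := by exact_mod_cast hN
      exact this.ne
  · refine (tris_card _ _).trans ?_
    rw [len, h1, h2, h3, h4]; omega

end MP01b126.LB
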