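import Pool.Agent.Lib.MP_01b126_co.LB.Core

namespace MP01b126.LB

/-- the certificate vector -/
def V (s : ℤ × ℤ) : ℕ := Vn (s.1 + 10).toNat (s.2 + 10).toNat

/-- the box of states -/
noncomputable def box : Finset (ℤ × ℤ) := Finset.Icc (-8) 8 ×ˢ Finset.Icc (-8) 8

lemma mem_box (s : ℤ × ℤ) : s ∈ box ↔ (-8 ≤ s.1 ∧ s.1 ≤ 8) ∧ (-8 ≤ s.2 ∧ s.2 ≤ 8) := by
  simp [box, Finset.mem_product]

lemma Vn_small : ∀ k < 19, ∀ j < 19, (k < 2 ∨ j < 2) → Vn k j = 0 := by decide

lemma tab_rows : ∀ row ∈ tab, row.length ≤ 19 := by decide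

lemma Vn_ne {k j : ℕ} (h : Vn k j ≠ 0) : 2 ≤ k ∧ k ≤ 18 ∧ 2 ≤ j ∧ j ≤ 18 := by
  have hk : k < 19 := by
    by_contra hk
    apply h
    have : tab.getD k [] = [] := List.getD_eq_default _ _ (by
      have : tab.length = 19 := by decide
      omega)
    unfold Vn
    rw [this]
    rfl
  have hj : j < 19 := by
    by_contra hj
    apply h
    have hmem : tab.getD k [] ∈ tab := by
      have hlen : k < tab.length := by
        have : tab.length = 19 := by decide
        omega
      rw [List.getD_eq_getElem _ _ hlen]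
      exact List.getElem_mem hlen
    have := tab_rows _ hmem
    exact List.getD_eq_default _ _ (by omega)
  by_contra hcon
  apply h
  exact Vn_small k hk j hj (by omega)

lemma V_box {s : ℤ × ℤ} (h : V s ≠ 0) : s ∈ box := by
  have := Vn_ne h
  rw [mem_box]
  omega

lemma V_le (s : ℤ × ℤ) : V s ≤ 1000 := by
  by_cases h : V s = 0
  · omega
  have h1 := Vn_ne h
  have : ∀ k < 19, ∀ j < 19, Vn k j ≤ 1000 := by decide
  exact this _ (by omega) _ (by omega)

/-- all steps with few extra letters -/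
def steps : Finset Step := (Finset.univ : Finset Bool) ×ˢ (Finset.range 19 ×ˢ (Finset.univ : Finset Bool))

lemma chk_all {i j : ℕ} (hi : i < 17) (hj : j < 17) : chk i j = true := by
  have key2 : ∀ i n, chkAll.go i n = true → ∀ j < n, chk i j = true := by
    intro i n
    induction n with
    | zero => intro _ j hj; omega
    | succ n ih =>
      intro h j hj
      simp only [chkAll.go, Bool.and_eq_true] at h
      rcases Nat.lt_succ_iff_lt_or_eq.mp hj with h' | h'
      · exact ih h.2 j h'
      · rw [h']; exact h.1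
  have key : ∀ n m, chkAll n m = true → ∀ i < n, ∀ j < m, chk i j = true := by
    intro n m
    induction n with
    | zero => intro _ j hj; omega
    | succ n ih =>
      intro h i hi j hj
      simp only [chkAll, Bool.and_eq_true] at h
      rcases Nat.lt_succ_iff_lt_or_eq.mp hi with h' | h'
      · exact ih h.2 i h' j hj
      · rw [h']; exact key2 n m h.1 j hj
  exact key 17 17 chkAll_true i hi j hj

/-- the base of the weights -/
noncomputable def x : ℝ := 22 / 45

lemma x_pos : 0 < x := by norm_num [x]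

lemma cert_nat {i j : ℕ} (hi : i < 17) (hj : j < 17) :
    Vn (i + 2) (j + 2) * 45 ^ 20 ≤ ∑ G ∈ Finset.range 19, 22 ^ (2 + G) * 45 ^ (18 - G) *
      (Vn (i + G) (j + 3) * (if i + G = 10 then 2 else 1)
        + Vn (i + 3) (j + G) * (if j + G = 10 then 2 else 1)) := by
  have h := chk_all hi hj
  unfold chk at h
  rw [sumTo_eq] at h
  have h := Nat.le_of_ble_eq_true h
  refine h.trans (le_of_eq ?_)
  apply Finset.sum_congr rfl
  intro G _
  have e1 : (if Nat.beq (i + G) 10 = true then 2 else 1) = (if i + G = 10 then 2 else 1) := by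
    by_cases hh : i + G = 10
    · simp [hh]
    · simp [hh, Nat.beq_eq]
  have e2 : (if Nat.beq (j + G) 10 = true then 2 else 1) = (if j + G = 10 then 2 else 1) := by
    by_cases hh : j + G = 10
    · simp [hh]
    · simp [hh, Nat.beq_eq]
  rw [e1, e2]

lemma cert_real {i j : ℕ} (hi : i < 17) (hj : j < 17) :
    (Vn (i + 2) (j + 2) : ℝ) ≤ ∑ G ∈ Finset.range 19, x ^ (2 + G) *
      (Vn (i + G) (j + 3) * (if i + G = 10 then 2 else 1)
        + Vn (i + 3) (j + G) * (if j + G = 10 then 2 else 1)) := by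
  have h := cert_nat hi hj
  have h2 : ((Vn (i + 2) (j + 2) * 45 ^ 20 : ℕ) : ℝ) ≤
      ((∑ G ∈ Finset.range 19, 22 ^ (2 + G) * 45 ^ (18 - G) *
      (Vn (i + G) (j + 3) * (if i + G = 10 then 2 else 1)
        + Vn (i + 3) (j + G) * (if j + G = 10 then 2 else 1)) : ℕ) : ℝ) := by
    exact_mod_cast h
  have h3 : ((∑ G ∈ Finset.range 19, 22 ^ (2 + G) * 45 ^ (18 - G) *
      (Vn (i + G) (j + 3) * (if i + G = 10 then 2 else 1)
        + Vn (i + 3) (j + G) * (if j + G = 10 then 2 else 1)) : ℕ) : ℝ)
      = 45 ^ 20 * ∑ G ∈ Finset.range 19, x ^ (2 + G) *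
      (Vn (i + G) (j + 3) * (if i + G = 10 then 2 else 1)
        + Vn (i + 3) (j + G) * (if j + G = 10 then 2 else 1)) := by
    push_cast
    rw [Finset.mul_sum]
    apply Finset.sum_congr rfl
    intro G hG
    have hG' : G < 19 := Finset.mem_range.mp hG
    have e : (45 : ℝ) ^ 20 = 45 ^ (2 + G) * 45 ^ (18 - G) := by
      rw [← pow_add]; congr 1; omega
    rw [e, x, div_pow]
    have : (45 : ℝ) ^ (2 + G) ≠ 0 := by positivity
    field_simp
  rw [h3, Nat.cast_mul, Nat.cast_pow, mul_comm] at h2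
  have h4 : (0 : ℝ) < 45 ^ 20 := by positivity
  have h5 : (((45 : ℕ) : ℝ)) ^ 20 = 45 ^ 20 := by norm_num
  rw [h5] at h2
  exact le_of_mul_le_mul_left h2 h4

lemma V_eq {s : ℤ × ℤ} {k j : ℕ} (h1 : s.1 + 10 = k) (h2 : s.2 + 10 = j) : V s = Vn k j := by
  unfold V
  rw [h1, h2]; simp

lemma cert {s : ℤ × ℤ} (hs : s ∈ box) :
    (V s : ℝ) ≤ ∑ t ∈ steps.filter (fun t => okStep s t ∧ nxt s t ∈ box),
      x ^ (2 + t.2.1) * V (nxt s t) := by
  rw [mem_box] at hs
  obtain ⟨i, hi⟩ : ∃ i : ℕ, s.1 + 8 = i := ⟨(s.1 + 8).toNat, by omega⟩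
  obtain ⟨j, hj⟩ : ∃ j : ℕ, s.2 + 8 = j := ⟨(s.2 + 8).toNat, by omega⟩
  have hi17 : i < 17 := by omega
  have hj17 : j < 17 := by omega
  have key : ∑ t ∈ steps.filter (fun t => okStep s t ∧ nxt s t ∈ box),
      x ^ (2 + t.2.1) * V (nxt s t) = ∑ t ∈ steps, if okStep s t then
      x ^ (2 + t.2.1) * (V (nxt s t) : ℝ) else 0 := by
    rw [Finset.sum_filter]
    apply Finset.sum_congr rfl
    intro t _
    by_cases h1 : okStep s t
    · by_cases h2 : nxt s t ∈ box
      · simp [h1, h2]
      · have : V (nxt s t) = 0 := by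
          by_contra h3; exact h2 (V_box h3)
        simp [h1, h2, this]
    · simp [h1]
  rw [key]
  have key2 : (∑ t ∈ steps, if okStep s t then
      x ^ (2 + t.2.1) * (V (nxt s t) : ℝ) else 0) = ∑ G ∈ Finset.range 19, x ^ (2 + G) *
      (Vn (i + G) (j + 3) * (if i + G = 10 then 2 else 1)
        + Vn (i + 3) (j + G) * (if j + G = 10 then 2 else 1)) := by
    rw [steps, Finset.sum_product, Fintype.sum_bool, Finset.sum_product, Finset.sum_product,
      ← Finset.sum_add_distrib]
    apply Finset.sum_congr rfl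
    intro G _
    rw [Fintype.sum_bool, Fintype.sum_bool]
    have v1 : V (nxt s (true, G, true)) = Vn (i + G) (j + 3) :=
      V_eq (by simp [nxt]; omega) (by simp [nxt]; omega)
    have v2 : V (nxt s (true, G, false)) = Vn (i + G) (j + 3) :=
      V_eq (by simp [nxt]; omega) (by simp [nxt]; omega)
    have v3 : V (nxt s (false, G, true)) = Vn (i + 3) (j + G) :=
      V_eq (by simp [nxt]; omega) (by simp [nxt]; omega)
    have v4 : V (nxt s (false, G, false)) = Vn (i + 3) (j + G) :=
      V_eq (by simp [nxt]; omega) (by simp [nxt]; omega)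
    have o1 : okStep s (true, G, true) ↔ i + G = 10 := by
      simp only [okStep]; constructor <;> intro h <;> simp at * <;> omega
    have o2 : okStep s (true, G, false) := by simp [okStep]
    have o3 : okStep s (false, G, true) ↔ j + G = 10 := by
      simp only [okStep]; constructor <;> intro h <;> simp at * <;> omega
    have o4 : okStep s (false, G, false) := by simp [okStep]
    simp only [v1, v2, v3, v4, o1, o2, o3, o4, if_true]
    split_ifs <;> ring
  rw [key2, V_eq (k := i + 2) (j := j + 2) (by push_cast; omega) (by push_cast; omega)]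
  exact cert_real hi17 hj17

/-- admissible step lists of length `K` staying in the box -/
noncomputable def P : ℕ → ℤ × ℤ → Finset (List Step)
  | 0, _ => {[]}
  | K + 1, s => (steps.filter (fun t => okStep s t ∧ nxt s t ∈ box)).biUnion
      (fun t => (P K (nxt s t)).image (List.cons t))

lemma sum_P_succ (K : ℕ) (s : ℤ × ℤ) (g : List Step → ℝ) :
    ∑ l ∈ P (K + 1) s, g l = ∑ t ∈ steps.filter (fun t => okStep s t ∧ nxt s t ∈ box),
      ∑ l ∈ P K (nxt s t), g (t :: l) := by
  rw [P, Finset.sum_biUnion]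
  · apply Finset.sum_congr rfl
    intro t _
    rw [Finset.sum_image]
    intro a _ b _ h
    exact (List.cons.inj h).2
  · intro t _ t' _ htt'
    rw [Function.onFun, Finset.disjoint_left]
    intro l hl hl'
    rw [Finset.mem_image] at hl hl'
    obtain ⟨a, _, ha⟩ := hl
    obtain ⟨b, _, hb⟩ := hl'
    apply htt'
    rw [← hb] at ha
    exact (List.cons.inj ha).1

@[simp] lemma len_nil : len [] = 0 := rfl
lemma len_cons (t : Step) (l : List Step) : len (t :: l) = (2 + t.2.1) + len l := by
  simp only [len, cA_cons, cP_cons, cQ_cons, cB_cons]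
  split_ifs <;> ring
lemma len_append (l l' : List Step) : len (l ++ l') = len l + len l' := by
  simp only [len, cA_append, cP_append, cQ_append, cB_append]; ring

lemma weight_ge (K : ℕ) {s : ℤ × ℤ} (hs : s ∈ box) :
    (V s : ℝ) ≤ ∑ l ∈ P K s, x ^ len l * V (fin s l) := by
  induction K generalizing s with
  | zero => simp [P, fin]
  | succ K ih =>
    rw [sum_P_succ]
    refine (cert hs).trans ?_
    apply Finset.sum_le_sum
    intro t ht
    rw [Finset.mem_filter] at ht
    have h := ih ht.2.2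
    have hx : 0 < x ^ (2 + t.2.1) := pow_pos x_pos _
    calc x ^ (2 + t.2.1) * (V (nxt s t) : ℝ)
        ≤ x ^ (2 + t.2.1) * ∑ l ∈ P K (nxt s t), x ^ len l * V (fin (nxt s t) l) :=
          mul_le_mul_of_nonneg_left h hx.le
      _ = ∑ l ∈ P K (nxt s t), x ^ len (t :: l) * V (fin s (t :: l)) := by
          rw [Finset.mul_sum]
          apply Finset.sum_congr rfl
          intro l _
          rw [len_cons, pow_add _ (2 + t.2.1) (len l)]
          simp only [fin]
          ring

lemma mem_P {K : ℕ} {s : ℤ × ℤ} (hs : s ∈ box) {l : List Step} (hl : l ∈ P K s) :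
    l.length = K ∧ Valid s l ∧ fin s l ∈ box ∧ cA l ≤ 18 * K ∧ cP l ≤ 18 * K ∧ cQ l ≤ 18 * K ∧
      cB l ≤ 18 * K := by
  induction K generalizing s l with
  | zero =>
    simp only [P, Finset.mem_singleton] at hl
    subst hl
    simp [Valid, fin, hs]
  | succ K ih =>
    rw [P, Finset.mem_biUnion] at hl
    obtain ⟨t, ht, hl⟩ := hl
    rw [Finset.mem_image] at hl
    obtain ⟨l', hl', rfl⟩ := hl
    rw [Finset.mem_filter] at ht
    obtain ⟨h1, h2, h3, h4, h5, h6, h7⟩ := ih ht.2.2 hl'
    have hG : t.2.1 < 19 := by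
      have := ht.1
      simp only [steps, Finset.mem_product, Finset.mem_range] at this
      exact this.2.1
    refine ⟨by simp [h1], ⟨ht.2.1, h2⟩, h3, ?_, ?_, ?_, ?_⟩
    · simp only [cA_cons]; split_ifs <;> omega
    · simp only [cP_cons]; split_ifs <;> omega
    · simp only [cQ_cons]; split_ifs <;> omega
    · simp only [cB_cons]; split_ifs <;> omega

end MP01b126.LB
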